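import Mathlib
import Pool.Agent.H11.PS.Exc

/-!
# The exceptional set in a box, for the twists by a bounded function
-/

set_option autoImplicit false

open Finset

namespace Pool.Agent.H11.PT

open Pool.Agent.Y722.HS (IH red)
open Pool.Agent.H11.TC (blk mem_blk card_blk gp grid gp_re card_grid exists_grid cpow_lip log_div_le)
open Pool.Agent.H11.PS (kL Good box_moment norm_pu)

variable {ι : Type} [Fintype ι] [DecidableEq ι]

/-- the sum over a block -/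
noncomputable def Zg (g : ℕ → ℂ) (h : ∀ p : ℕ, (ι → ZMod p) → ℝ) (j : ℕ) (c : ι → ℤ) (u : ℂ) : ℝ :=
  ∑ p ∈ blk j, (g p * (p : ℂ) ^ (-u)).re * h p (red p c)

theorem re_gpu {g : ℕ → ℂ} (hg1 : ∀ p, ‖g p‖ ≤ 1) {p : ℕ} (hp : 1 ≤ p) {u : ℂ} (hu : 0 ≤ u.re) :
    |(g p * (p : ℂ) ^ (-u)).re| ≤ 1 := by
  refine (Complex.abs_re_le_norm _).trans ?_
  rw [norm_mul]
  calc ‖g p‖ * ‖(p : ℂ) ^ (-u)‖ ≤ 1 * 1 :=
        mul_le_mul (hg1 p) (norm_pu hp hu) (norm_nonneg _) zero_le_one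
    _ = 1 := one_mul 1

open Classical in
theorem card_big {g : ℕ → ℂ} (hg1 : ∀ p, ‖g p‖ ≤ 1) {h : ∀ p : ℕ, (ι → ZMod p) → ℝ} {B : ℝ} {J : ℕ} (hg : Good h B J) (hB : 0 < B) {H j : ℕ}
    (hH : 1 ≤ H) (hjJ : j < J) (hj : 1 ≤ j) (h4 : 4 ^ (j + 1) ≤ 6 * H) {u : ℂ} (hu : 0 ≤ u.re) :
    (((Pool.Agent.Y722.HS.box ι H).filter fun c => 1 / (2 * (j : ℝ) ^ 2) < |Zg g h j c u|).card : ℝ) ≤
      (24 * H : ℝ) ^ Fintype.card ι * (2 * (56 * B ^ 2 * kL H j * (j : ℝ) ^ 4) ^ kL H j) *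
        (2 ^ (j + 1) / Real.sqrt (6 * H)) := by
  have hj0 : (0 : ℝ) < j := by exact_mod_cast hj
  have hH0 : (0 : ℝ) < H := by exact_mod_cast hH
  set k := kL H j with hk
  have hk1 : 1 ≤ k := Nat.log_pos (Nat.one_lt_pow (by omega) (by norm_num)) h4
  have hk0 : (0 : ℝ) < k := by exact_mod_cast hk1
  have hpow1 : (2 ^ (j + 1)) ^ (2 * k) ≤ 6 * H := by
    have h1 := Nat.pow_log_le_self (4 ^ (j + 1)) (x := 6 * H) (by omega)
    have e1 : (2 ^ (j + 1)) ^ (2 * k) = (4 ^ (j + 1)) ^ k := by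
      rw [show (4 : ℕ) = 2 ^ 2 by norm_num, ← pow_mul, ← pow_mul, ← pow_mul]
      congr 1
      ring
    rw [e1]
    exact h1
  have hpow2 : Real.sqrt (6 * H) ≤ (2 : ℝ) ^ (j + 1) * (2 ^ k * (2 ^ j) ^ k) := by
    have h1 := Nat.lt_pow_succ_log_self (b := 4 ^ (j + 1)) (Nat.one_lt_pow (by omega) (by norm_num)) (6 * H)
    change 6 * H < (4 ^ (j + 1)) ^ (k + 1) at h1
    have h2 : (6 * (H : ℝ)) ≤ ((2 : ℝ) ^ (j + 1) * (2 ^ k * (2 ^ j) ^ k)) ^ 2 := by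
      have h3 : (6 * (H : ℝ)) ≤ ((4 : ℝ) ^ (j + 1)) ^ (k + 1) := by exact_mod_cast h1.le
      refine h3.trans (le_of_eq ?_)
      rw [show (4 : ℝ) = 2 ^ 2 by norm_num, ← mul_pow, ← pow_succ' , ← pow_mul, ← pow_mul, ← pow_mul,
        ← pow_add, ← pow_mul]
      congr 1
      ring
    exact Real.sqrt_le_iff.mpr ⟨by positivity, h2⟩
  -- the moment
  have hm := box_moment (ι := ι) (blk j) (fun p hp => (mem_blk.mp hp).2) (k := k) (H := H)
    (Q := 2 ^ (j + 1)) hk1 hH (fun p hp => (mem_blk.mp hp).1.2) hpow1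
    (fun p z => (g p * (p : ℂ) ^ (-u)).re * h p z) (fun p hp _ => by
      rw [← mul_sum, hg.mean j hjJ p hp, mul_zero]) (fun _ => B / 2 ^ j) (fun _ _ => by positivity)
    (fun p hp z => by
      rw [abs_mul]
      have h1 := re_gpu hg1 (mem_blk.mp hp).2.one_lt.le hu
      have h2 := hg.bd j hjJ p hp z
      calc |(g p * (p : ℂ) ^ (-u)).re| * |h p z| ≤ 1 * (B / 2 ^ j) := by gcongr
        _ = _ := one_mul _) (S := B ^ 2 / 2 ^ j) (by positivity) (by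
      rw [sum_const, nsmul_eq_mul]
      have h1 := card_blk j
      calc ((blk j).card : ℝ) * (B / 2 ^ j) ^ 2 ≤ 2 ^ j * (B / 2 ^ j) ^ 2 := by gcongr
        _ = _ := by field_simp)
  set F := (Pool.Agent.Y722.HS.box ι H).filter fun c => 1 / (2 * (j : ℝ) ^ 2) < |Zg g h j c u| with hF
  have h1 : (F.card : ℝ) * (1 / (2 * (j : ℝ) ^ 2)) ^ (2 * k) ≤
      (24 * H : ℝ) ^ Fintype.card ι * (2 * (7 * k * (B ^ 2 / 2 ^ j)) ^ k) := by
    refine le_trans ?_ hm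
    rw [← nsmul_eq_mul, ← sum_const]
    calc _ ≤ ∑ c ∈ F, (∑ p ∈ blk j, (g p * (p : ℂ) ^ (-u)).re * h p (red p c)) ^ (2 * k) := by
          refine sum_le_sum fun c hc => ?_
          rw [hF, mem_filter] at hc
          have h2 := hc.2.le
          change _ ≤ (Zg g h j c u) ^ (2 * k)
          rw [pow_mul, pow_mul, ← sq_abs (Zg g h j c u)]
          gcongr
      _ ≤ _ := sum_le_sum_of_subset_of_nonneg (filter_subset _ _) fun c _ _ => by
          rw [pow_mul]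
          positivity
  have h5 : (1 / (2 * (j : ℝ) ^ 2)) ^ (2 * k) = (1 / (4 * (j : ℝ) ^ 4)) ^ k := by
    rw [pow_mul]
    congr 1
    field_simp
    norm_num
  rw [h5] at h1
  have h6 : (0 : ℝ) < (1 / (4 * (j : ℝ) ^ 4)) ^ k := by positivity
  rw [← le_div_iff₀ h6] at h1
  refine h1.trans ?_
  have e1 : (24 * H : ℝ) ^ Fintype.card ι * (2 * (7 * k * (B ^ 2 / 2 ^ j)) ^ k) / (1 / (4 * (j : ℝ) ^ 4)) ^ k =
      (24 * H : ℝ) ^ Fintype.card ι * (2 * (56 * B ^ 2 * k * (j : ℝ) ^ 4) ^ k) * (1 / (2 ^ k * (2 ^ j) ^ k)) := by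
    have h7 : 7 * (k : ℝ) * (B ^ 2 / 2 ^ j) / (1 / (4 * (j : ℝ) ^ 4)) =
        (56 * B ^ 2 * k * (j : ℝ) ^ 4) / (2 * 2 ^ j) := by
      field_simp
      ring
    calc _ = (24 * H : ℝ) ^ Fintype.card ι *
          (2 * ((7 * k * (B ^ 2 / 2 ^ j)) ^ k / (1 / (4 * (j : ℝ) ^ 4)) ^ k)) := by ring
      _ = (24 * H : ℝ) ^ Fintype.card ι * (2 * ((56 * B ^ 2 * k * (j : ℝ) ^ 4) / (2 * 2 ^ j)) ^ k) := by
          rw [← div_pow, h7]
      _ = _ := by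
          rw [div_pow, mul_pow 2 ((2 : ℝ) ^ j)]
          ring
  rw [e1]
  have hs : 0 < Real.sqrt (6 * H) := Real.sqrt_pos.mpr (by positivity)
  gcongr ?_ * ?_
  rw [div_le_div_iff₀ (by positivity) hs]
  linarith

theorem Zg_lip {g : ℕ → ℂ} (hg1 : ∀ p, ‖g p‖ ≤ 1) {h : ∀ p : ℕ, (ι → ZMod p) → ℝ} {B : ℝ} {J : ℕ} (hg : Good h B J) (hB : 0 < B) {j : ℕ}
    (hjJ : j < J) (c : ι → ℤ) {u w : ℂ} (hu : 0 ≤ u.re) (hw : 0 ≤ w.re) :
    |Zg g h j c w - Zg g h j c u| ≤ B * (j + 1) * (2 * ‖w - u‖) := by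
  unfold Zg
  rw [← sum_sub_distrib]
  refine (abs_sum_le_sum_abs _ _).trans ?_
  have h1 : ∀ p ∈ blk j, |(g p * (p : ℂ) ^ (-w)).re * h p (red p c) - (g p * (p : ℂ) ^ (-u)).re * h p (red p c)| ≤
      ((j : ℝ) + 1) * ‖w - u‖ * (2 * (B / 2 ^ j)) := by
    intro p hp
    have hpp := (mem_blk.mp hp).2
    have hp0 : (0 : ℝ) < p := by exact_mod_cast hpp.pos
    have hpc : (p : ℂ) ≠ 0 := by exact_mod_cast hpp.ne_zero
    rw [← sub_mul, abs_mul, ← Complex.sub_re, ← mul_sub]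
    have h2 : ‖(p : ℂ) ^ (-w) - (p : ℂ) ^ (-u)‖ ≤ ((j : ℝ) + 1) * ‖w - u‖ * 2 := by
      have e : ∀ z : ℂ, (p : ℂ) ^ (-z) = (p : ℂ) * (p : ℂ) ^ (-(1 + z)) := by
        intro z
        rw [neg_add, Complex.cpow_add _ _ hpc, Complex.cpow_neg_one, ← mul_assoc, mul_inv_cancel₀ hpc,
          one_mul]
      rw [e w, e u, ← mul_sub, norm_mul, Complex.norm_natCast]
      have h3 := cpow_lip hpp.pos hu hw
      have h4 : Real.log p ≤ ((j : ℝ) + 1) * 2 := by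
        have h5 : (p : ℝ) ≤ 2 ^ (j + 1) := by exact_mod_cast (mem_blk.mp hp).1.2
        calc Real.log p ≤ Real.log (2 ^ (j + 1)) := Real.log_le_log hp0 h5
          _ = ((j + 1 : ℕ) : ℝ) * Real.log 2 := Real.log_pow _ _
          _ ≤ ((j + 1 : ℕ) : ℝ) * 2 := by
              gcongr
              have := Real.log_two_lt_d9
              linarith
          _ = _ := by push_cast; ring
      calc (p : ℝ) * ‖(p : ℂ) ^ (-(1 + w)) - (p : ℂ) ^ (-(1 + u))‖ ≤ p * (Real.log p / p * ‖w - u‖) := by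
            gcongr
        _ = Real.log p * ‖w - u‖ := by field_simp
        _ ≤ ((j : ℝ) + 1) * 2 * ‖w - u‖ := by gcongr
        _ = _ := by ring
    have h2' : ‖g p * ((p : ℂ) ^ (-w) - (p : ℂ) ^ (-u))‖ ≤ ((j : ℝ) + 1) * ‖w - u‖ * 2 := by
      rw [norm_mul]
      calc ‖g p‖ * ‖(p : ℂ) ^ (-w) - (p : ℂ) ^ (-u)‖ ≤ 1 * (((j : ℝ) + 1) * ‖w - u‖ * 2) :=
            mul_le_mul (hg1 p) h2 (norm_nonneg _) zero_le_one
        _ = _ := one_mul _
    calc |(g p * ((p : ℂ) ^ (-w) - (p : ℂ) ^ (-u))).re| * |h p (red p c)| ≤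
        (((j : ℝ) + 1) * ‖w - u‖ * 2) * (B / 2 ^ j) :=
          mul_le_mul ((Complex.abs_re_le_norm _).trans h2') (hg.bd j hjJ p hp _) (abs_nonneg _) (by positivity)
      _ = _ := by ring
  refine (sum_le_sum h1).trans ?_
  rw [sum_const, nsmul_eq_mul]
  have h5 := card_blk j
  calc ((blk j).card : ℝ) * (((j : ℝ) + 1) * ‖w - u‖ * (2 * (B / 2 ^ j))) ≤
      2 ^ j * (((j : ℝ) + 1) * ‖w - u‖ * (2 * (B / 2 ^ j))) := by gcongr
    _ = _ := by field_simp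

open Classical in
/-- the exceptional set -/
noncomputable def Ex (g : ℕ → ℂ) (h : ∀ p : ℕ, (ι → ZMod p) → ℝ) (H j0 J M T : ℕ) : Finset (ι → ℤ) :=
  (Pool.Agent.Y722.HS.box ι H).filter fun c => ∃ j ∈ Ico j0 J, ∃ x ∈ grid M T,
    1 / (2 * (j : ℝ) ^ 2) < |Zg g h j c (gp M x)|

theorem card_Ex {g : ℕ → ℂ} (hg1 : ∀ p, ‖g p‖ ≤ 1) {h : ∀ p : ℕ, (ι → ZMod p) → ℝ} {B : ℝ} {J : ℕ} (hg : Good h B J) (hB : 0 < B)
    {H j0 M T : ℕ} (hH : 1 ≤ H) (hj0 : 1 ≤ j0) (h4 : 4 ^ J ≤ 6 * H) {V : ℝ} (hV : 0 ≤ V)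
    (hk : ∀ j ∈ Ico j0 J, (56 * B ^ 2 * kL H j * (j : ℝ) ^ 4) ^ kL H j ≤ V) :
    ((Ex (ι := ι) g h H j0 J M T).card : ℝ) ≤ J * ((M + 1) * (2 * T * M + 1)) *
      ((24 * H : ℝ) ^ Fintype.card ι * (2 * V) * (2 ^ J / Real.sqrt (6 * H))) := by
  classical
  have hH0 : (0 : ℝ) < H := by exact_mod_cast hH
  have hs : 0 < Real.sqrt (6 * H) := Real.sqrt_pos.mpr (by positivity)
  set Wt : ℝ := (24 * H : ℝ) ^ Fintype.card ι * (2 * V) * (2 ^ J / Real.sqrt (6 * H)) with hWt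
  have hWt0 : 0 ≤ Wt := by positivity
  have hsub : Ex (ι := ι) g h H j0 J M T ⊆ (Ico j0 J).biUnion fun j => (grid M T).biUnion fun x =>
      (Pool.Agent.Y722.HS.box ι H).filter fun c => 1 / (2 * (j : ℝ) ^ 2) < |Zg g h j c (gp M x)| := by
    intro c hc
    unfold Ex at hc
    rw [mem_filter] at hc
    obtain ⟨hc1, j, hj, x, hgg, h⟩ := hc
    rw [mem_biUnion]
    refine ⟨j, hj, ?_⟩
    rw [mem_biUnion]
    refine ⟨x, hgg, ?_⟩
    rw [mem_filter]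
    exact ⟨hc1, h⟩
  have h1 := (card_le_card hsub).trans card_biUnion_le
  have h2 : ((Ex (ι := ι) g h H j0 J M T).card : ℝ) ≤ ∑ j ∈ Ico j0 J, ∑ x ∈ grid M T, Wt := by
    calc ((Ex (ι := ι) g h H j0 J M T).card : ℝ) ≤ ((∑ j ∈ Ico j0 J, ((grid M T).biUnion fun x =>
        (Pool.Agent.Y722.HS.box ι H).filter fun c =>
          1 / (2 * (j : ℝ) ^ 2) < |Zg g h j c (gp M x)|).card : ℕ) : ℝ) := by
          exact_mod_cast h1
      _ = ∑ j ∈ Ico j0 J, ((((grid M T).biUnion fun x =>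
        (Pool.Agent.Y722.HS.box ι H).filter fun c =>
          1 / (2 * (j : ℝ) ^ 2) < |Zg g h j c (gp M x)|).card : ℕ) : ℝ) := by
          push_cast
          rfl
      _ ≤ _ := by
          refine sum_le_sum fun j hj => ?_
          have h3 := card_biUnion_le (s := grid M T) (t := fun x =>
            (Pool.Agent.Y722.HS.box ι H).filter fun c => 1 / (2 * (j : ℝ) ^ 2) < |Zg g h j c (gp M x)|)
          calc _ ≤ ((∑ x ∈ grid M T, ((Pool.Agent.Y722.HS.box ι H).filter fun c =>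
              1 / (2 * (j : ℝ) ^ 2) < |Zg g h j c (gp M x)|).card : ℕ) : ℝ) := by exact_mod_cast h3
            _ = ∑ x ∈ grid M T, (((Pool.Agent.Y722.HS.box ι H).filter fun c =>
              1 / (2 * (j : ℝ) ^ 2) < |Zg g h j c (gp M x)|).card : ℝ) := by push_cast; rfl
            _ ≤ _ := by
                refine sum_le_sum fun x _ => ?_
                have hjm := mem_Ico.mp hj
                have h5 : 4 ^ (j + 1) ≤ 6 * H := (Nat.pow_le_pow_right (by norm_num) hjm.2).trans h4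
                refine (card_big hg1 hg hB hH hjm.2 (hj0.trans hjm.1) h5 (gp_re M x)).trans ?_
                have h6 := hk j hj
                have h7 : (2 : ℝ) ^ (j + 1) ≤ 2 ^ J := pow_le_pow_right₀ (by norm_num) hjm.2
                rw [hWt]
                gcongr
  refine h2.trans ?_
  rw [sum_const, sum_const, nsmul_eq_mul, nsmul_eq_mul, card_grid, Nat.card_Ico]
  push_cast
  have h5 : ((J - j0 : ℕ) : ℝ) ≤ J := by exact_mod_cast Nat.sub_le _ _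
  calc ((J - j0 : ℕ) : ℝ) * (((M : ℝ) + 1) * (2 * T * M + 1) * Wt) ≤
      J * (((M : ℝ) + 1) * (2 * T * M + 1) * Wt) := by gcongr
    _ = _ := by ring

/-- outside of the exceptional set the sums over the blocks are small in the whole rectangle -/
theorem block_small {g : ℕ → ℂ} (hg1 : ∀ p, ‖g p‖ ≤ 1) {h : ∀ p : ℕ, (ι → ZMod p) → ℝ} {B : ℝ} {J : ℕ} (hg : Good h B J) (hB : 0 < B)
    {H j0 M T : ℕ} (hj0 : 1 ≤ j0) (hM : 0 < M) (hM8 : 8 * B * (J : ℝ) ^ 3 ≤ M) {c : ι → ℤ}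
    (hc : c ∈ Pool.Agent.Y722.HS.box ι H) (hcE : c ∉ Ex g h H j0 J M T) {ε τ : ℝ} (hε0 : 0 ≤ ε)
    (hε1 : ε ≤ 1) (hτ : |τ| ≤ T) :
    ∑ j ∈ Ico j0 J, |Zg g h j c ((ε : ℂ) + τ * Complex.I)| ≤ 2 := by
  classical
  set u : ℂ := (ε : ℂ) + τ * Complex.I with hu
  have hure : 0 ≤ u.re := by rw [hu]; simpa using hε0
  have h5 : ∀ j ∈ Ico j0 J, |Zg g h j c u| ≤ 1 / (j : ℝ) ^ 2 := by
    intro j hj
    obtain ⟨x, hgg, hg2⟩ := exists_grid hM hε0 hε1 hτ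
    rw [← hu] at hg2
    have hjm := mem_Ico.mp hj
    have h6 : |Zg g h j c (gp M x)| ≤ 1 / (2 * (j : ℝ) ^ 2) := by
      by_contra hcon
      push Not at hcon
      apply hcE
      unfold Ex
      rw [mem_filter]
      exact ⟨hc, j, hj, x, hgg, hcon⟩
    have h7 := Zg_lip hg1 hg hB hjm.2 c (gp_re M x) hure
    have hj1 : 1 ≤ j := hj0.trans hjm.1
    have hj1' : (1 : ℝ) ≤ j := by exact_mod_cast hj1
    have hjJ : (j : ℝ) + 1 ≤ J := by exact_mod_cast hjm.2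
    have hM0 : (0 : ℝ) < M := by exact_mod_cast hM
    have h8 : B * ((j : ℝ) + 1) * (2 * ‖u - gp M x‖) ≤ 1 / (2 * (j : ℝ) ^ 2) := by
      calc B * ((j : ℝ) + 1) * (2 * ‖u - gp M x‖) ≤ B * ((j : ℝ) + 1) * (2 * (2 / M)) := by gcongr
        _ = 4 * B * ((j : ℝ) + 1) / M := by ring
        _ ≤ 1 / (2 * (j : ℝ) ^ 2) := by
            rw [div_le_div_iff₀ hM0 (by positivity)]
            have h9 : ((j : ℝ) + 1) * (j : ℝ) ^ 2 ≤ (J : ℝ) ^ 3 := by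
              calc ((j : ℝ) + 1) * (j : ℝ) ^ 2 ≤ (J : ℝ) * (J : ℝ) ^ 2 := by
                    gcongr
                    exact hjm.2.le
                _ = _ := by ring
            have h10 : 8 * B * (((j : ℝ) + 1) * (j : ℝ) ^ 2) ≤ 8 * B * (J : ℝ) ^ 3 := by gcongr
            nlinarith
    have h9 : |Zg g h j c u| ≤ |Zg g h j c (gp M x)| + |Zg g h j c u - Zg g h j c (gp M x)| := by
      have := abs_add_le (Zg g h j c (gp M x)) (Zg g h j c u - Zg g h j c (gp M x))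
      rwa [add_sub_cancel] at this
    have h10 : 1 / (2 * (j : ℝ) ^ 2) + 1 / (2 * (j : ℝ) ^ 2) = 1 / (j : ℝ) ^ 2 := by
      field_simp
      norm_num
    linarith
  refine (sum_le_sum h5).trans ?_
  have h1 : Ico j0 J = Ioo (j0 - 1) J := by
    ext j
    rw [mem_Ico, mem_Ioo]
    omega
  rw [h1]
  have h2 := sum_Ioo_inv_sq_le (α := ℝ) (j0 - 1) J
  have h3 : (2 : ℝ) / (((j0 - 1 : ℕ) : ℝ) + 1) ≤ 2 := by
    rw [div_le_iff₀ (by positivity)]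
    have : (0 : ℝ) ≤ ((j0 - 1 : ℕ) : ℝ) := by positivity
    linarith
  calc _ = ∑ i ∈ Ioo (j0 - 1) J, ((i : ℝ) ^ 2)⁻¹ := sum_congr rfl fun j _ => by rw [one_div]
    _ ≤ _ := h2.trans h3

end Pool.Agent.H11.PT
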