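import Mathlib
import Pool.Agent.H11.PT.Exc
import Pool.Agent.H11.PS.Member

/-!
# The prime sums of a member, in terms of the blocks
-/

set_option autoImplicit false

namespace Pool.Agent.H11.PT

open Finset Pool.Agent.Y722.HS Pool.Agent.Y722.LS Pool.Agent.N534.TL
open Pool.Agent.H11.TC (blk mem_blk card_blk gp grid gp_re card_grid exists_grid cpow_lip log_div_le)
open Pool.Agent.H11.PS (av cen hN gB BB_mem gB_nonneg gB_le av_hN av_gB trace_eq rho_near PR_split Zr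
  norm_pu blocksR)

variable {m : ℕ} {ι : Type} [Fintype ι] [DecidableEq ι]

/-- smoothness modulo `p` -/
def SmoothMod (f : ι → MvPolynomial (Fin (2 * m + 2)) ℤ) (c : ι → ℤ) (p : ℕ) : Prop :=
  ∀ [Fact p.Prime], IsSmooth (MvPolynomial.map (algebraMap (ZMod p) (AlgebraicClosure (ZMod p)))
    (lform (n := 2 * m + 1) f (red p c)))

/-- The data of the prime sums of two L-functions: `t` belongs to the member and `r` to the comparison. -/
structure Data (f : ι → MvPolynomial (Fin (2 * m + 2)) ℤ) (c : ι → ℤ) {b : ℕ} (α : ℕ → Fin b → ℂ)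
    (g : ℕ → ℂ) (q : ℕ) (ε τ : ℝ) (t r : ℕ → ℝ) : Prop where
  t_le : ∀ p, p.Prime → |t p| ≤ b / p
  r_le : ∀ p, p.Prime → |r p| ≤ 1 / p
  t_eq : ∀ p, p.Prime → ¬ p ∣ q → SmoothMod f c p →
    t p = (g p * (∑ j, α p j) * (p : ℂ) ^ (-((m : ℂ) + 1 + ε + τ * Complex.I))).re
  r_eq : ∀ p, p.Prime → ¬ p ∣ q → r p = (g p * (p : ℂ) ^ (-((ε : ℂ) + τ * Complex.I))).re * (1 / p)

section
variable {f : ι → MvPolynomial (Fin (2 * m + 2)) ℤ} {p0 : ℕ} {CZ : ℝ}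

theorem smooth_of_BB (P : MvPolynomial ι ℤ)
    (hP : ∀ (K : Type) [Field K] (c : ι → K), MvPolynomial.eval₂ (Int.castRingHom K) c P ≠ 0 →
      IsSmooth (lform (n := 2 * m + 1) f c)) {c : ι → ℤ} (p : ℕ)
    (hb : BB P p0 p (red p c) = 0) : SmoothMod f c p := by
  classical
  intro hpf
  have hb' : ¬ (p < p0 ∨ MvPolynomial.eval₂ (Int.castRingHom (ZMod p)) (red p c) P = 0) := by
    intro h1
    unfold BB at hb
    rw [if_pos h1] at hb
    norm_num at hb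
  push Not at hb'
  obtain ⟨hb1, hb2⟩ := hb'
  rw [map_lform]
  apply hP
  have h2 : MvPolynomial.eval₂ (Int.castRingHom (AlgebraicClosure (ZMod p)))
      (fun i => algebraMap (ZMod p) (AlgebraicClosure (ZMod p)) (red p c i)) P =
      algebraMap (ZMod p) (AlgebraicClosure (ZMod p))
        (MvPolynomial.eval₂ (Int.castRingHom (ZMod p)) (red p c) P) := by
    rw [MvPolynomial.eval₂_comp_left, RingHom.ext_int
      ((algebraMap (ZMod p) (AlgebraicClosure (ZMod p))).comp (Int.castRingHom (ZMod p)))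
      (Int.castRingHom (AlgebraicClosure (ZMod p)))]
    rfl
  rw [h2]
  intro h3
  exact hb2 ((map_eq_zero _).mp h3)

theorem term_near (P : MvPolynomial ι ℤ)
    (hP : ∀ (K : Type) [Field K] (c : ι → K), MvPolynomial.eval₂ (Int.castRingHom K) c P ≠ 0 →
      IsSmooth (lform (n := 2 * m + 1) f c))
    (hZ : ∀ p : ℕ, p.Prime → zc f p ≤ CZ * (p : ℝ) ^ m) {b : ℕ} {c : ι → ℤ} {α : ℕ → Fin b → ℂ}
    (h : IsFrobenius f b c α) {g : ℕ → ℂ} (hg1 : ∀ p, ‖g p‖ ≤ 1) {q : ℕ} {ε τ : ℝ} (hε : 0 ≤ ε)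
    {t r : ℕ → ℝ} (hd : Data f c α g q ε τ t r) (p : ℕ) [Fact p.Prime] (hpq : ¬ p ∣ q) :
    |t p - ((g p * (p : ℂ) ^ (-((ε : ℂ) + τ * Complex.I))).re * hN f P p0 p (red p c) +
        rho f p * (g p * (p : ℂ) ^ (-((ε : ℂ) + τ * Complex.I))).re)| ≤
      gB P p0 (b + CZ + 1) p (red p c) := by
  classical
  have hp := (Fact.out : p.Prime)
  have hp0 : (0 : ℝ) < p := by exact_mod_cast hp.pos
  have hpc : (p : ℂ) ≠ 0 := by exact_mod_cast hp.ne_zero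
  have hre : |(g p * (p : ℂ) ^ (-((ε : ℂ) + τ * Complex.I))).re| ≤ 1 :=
    re_gpu hg1 hp.one_lt.le (by simpa using hε)
  obtain ⟨hρ0, hρ1⟩ := rho_bd hZ p hp
  rcases BB_mem P p0 p (red p c) with hb | hb
  · obtain ⟨hb1, h3⟩ := trace_eq P hP h p hb
    have h4 := hd.t_eq p hp hpq (smooth_of_BB P hP p hb)
    have e1 : (p : ℂ) ^ (-((m : ℂ) + 1 + ε + τ * Complex.I)) =
        ((1 / (p : ℝ) ^ (m + 1) : ℝ) : ℂ) * (p : ℂ) ^ (-((ε : ℂ) + τ * Complex.I)) := by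
      have e2 : -((m : ℂ) + 1 + ε + τ * Complex.I) = -((m + 1 : ℕ) : ℂ) + -((ε : ℂ) + τ * Complex.I) := by
        push_cast
        ring
      rw [e2, Complex.cpow_add _ _ hpc, Complex.cpow_neg, Complex.cpow_natCast]
      push_cast
      rw [one_div]
    have e3 : g p * (∑ j, α p j) * (p : ℂ) ^ (-((m : ℂ) + 1 + ε + τ * Complex.I)) =
        (((la (n := 2 * m + 1) f p (red p c) + zc f p + (p : ℝ) ^ m) * (1 / (p : ℝ) ^ (m + 1)) : ℝ) : ℂ) *
          (g p * (p : ℂ) ^ (-((ε : ℂ) + τ * Complex.I))) := by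
      rw [e1, h3]
      push_cast
      ring
    rw [h4, e3, Complex.re_ofReal_mul, gB, hN, hb, mul_zero, sub_zero, one_mul]
    apply le_of_eq
    rw [abs_eq_zero, sub_eq_zero, NN, if_neg (by omega), rho]
    field_simp
    ring
  · rw [gB, hN, hb, sub_self, zero_mul, mul_zero, zero_add, mul_one]
    have h2 := hd.t_le p hp
    have h4 : |rho f p * (g p * (p : ℂ) ^ (-((ε : ℂ) + τ * Complex.I))).re| ≤ (CZ + 1) / p := by
      rw [abs_mul, abs_of_nonneg hρ0]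
      calc _ ≤ rho f p * 1 := by gcongr
        _ ≤ _ := by rw [mul_one]; exact hρ1
    have h5 := abs_sub (t p) (rho f p * (g p * (p : ℂ) ^ (-((ε : ℂ) + τ * Complex.I))).re)
    have h7 : ((b : ℝ) + CZ + 1) / p = b / p + (CZ + 1) / p := by ring
    rw [h7]
    linarith

/-- one prime beyond `2 ^ j0` -/
theorem one_prime (P : MvPolynomial ι ℤ)
    (hP : ∀ (K : Type) [Field K] (c : ι → K), MvPolynomial.eval₂ (Int.castRingHom K) c P ≠ 0 →
      IsSmooth (lform (n := 2 * m + 1) f c)) (hC1 : 0 ≤ CZ) (e : ℝ)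
    (hZ : ∀ p : ℕ, p.Prime → |zc f p - e * (p : ℝ) ^ m| ≤ CZ * (p : ℝ) ^ ((m : ℝ) - 1 / 2))
    (hZ' : ∀ p : ℕ, p.Prime → zc f p ≤ (|e| + CZ) * (p : ℝ) ^ m) {A : ℝ}
    (hF : Fam A (NN f p0) (BB P p0)) {b : ℕ} {β : ℝ} (hβ : β = b + (|e| + CZ) + 1)
    (c : ι → ℤ) (α : ℕ → Fin b → ℂ) (h : IsFrobenius f b c α)
    {g : ℕ → ℂ} (hg1 : ∀ p, ‖g p‖ ≤ 1) {q : ℕ} (hgq : ∀ p, p.Prime → p ∣ q → g p = 0) {ε τ : ℝ}
    (hε : 0 ≤ ε) {t r : ℕ → ℝ} (hd : Data f c α g q ε τ t r) (p : ℕ) (hp : p.Prime) :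
    |t p - (1 + e) * r p -
      (g p * (p : ℂ) ^ (-((ε : ℂ) + τ * Complex.I))).re * cen (hN f P p0) p (red p c)| ≤
      ((p : ℂ) ^ (-(0 : ℂ))).re * cen (gB P p0 β) p (red p c) +
        (3 * A + β * A + CZ) * (1 / (p : ℝ) ^ ((3 : ℝ) / 2)) +
        (b + |1 + e|) * (if p ∣ q then 1 / (p : ℝ) else 0) := by
  haveI := Fact.mk hp
  have hp0 : (0 : ℝ) < p := by exact_mod_cast hp.pos
  have hβ0 : 0 ≤ β := by rw [hβ]; positivity
  have h2 := av_hN (m := m) (f := f) (p0 := p0) hF p hp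
  have h3 := av_gB hF hβ0 p hp
  have h4 := rho_near (f := f) e hZ p hp
  have hA := hF.A0
  have e0 : ((p : ℂ) ^ (-(0 : ℂ))).re = 1 := by simp
  rw [e0, one_mul, cen, cen]
  by_cases hpq : p ∣ q
  · rw [if_pos hpq, hgq p hp hpq, zero_mul, Complex.zero_re, zero_mul, sub_zero]
    have i1 := abs_sub (t p) ((1 + e) * r p)
    have i2 := hd.t_le p hp
    have i3 : |(1 + e) * r p| ≤ |1 + e| * (1 / p) := by
      rw [abs_mul]
      have := hd.r_le p hp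
      gcongr
    have i4 := gB_nonneg P p0 hβ0 p (red p c)
    have e2 : (3 * A + β * A + CZ) * (1 / (p : ℝ) ^ ((3 : ℝ) / 2)) =
        β * A * (1 / (p : ℝ) ^ ((3 : ℝ) / 2)) + (3 * A + CZ) * (1 / (p : ℝ) ^ ((3 : ℝ) / 2)) := by ring
    have i5 : 0 ≤ (3 * A + CZ) * (1 / (p : ℝ) ^ ((3 : ℝ) / 2)) := by positivity
    have e3 : (b + |1 + e|) * (1 / (p : ℝ)) = b / p + |1 + e| * (1 / p) := by ring
    rw [e2, e3]
    linarith
  · rw [if_neg hpq, mul_zero, add_zero, hd.r_eq p hp hpq]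
    have h1 := term_near (p0 := p0) P hP hZ' h hg1 hε hd p hpq
    rw [← hβ] at h1
    have h5 : |(g p * (p : ℂ) ^ (-((ε : ℂ) + τ * Complex.I))).re| ≤ 1 :=
      re_gpu hg1 hp.one_lt.le (by simpa using hε)
    set r' := (g p * (p : ℂ) ^ (-((ε : ℂ) + τ * Complex.I))).re
    set x := hN f P p0 p (red p c)
    set a := av (hN f P p0) p
    set y := gB P p0 β p (red p c)
    set z := 1 / (p : ℝ) ^ ((3 : ℝ) / 2)
    have e1 : t p - (1 + e) * (r' * (1 / p)) - r' * (x - a) =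
        (t p - (r' * x + rho f p * r')) + r' * a + r' * (rho f p - (1 + e) * (1 / p)) := by ring
    rw [e1]
    have i1 := abs_add_le ((t p - (r' * x + rho f p * r')) + r' * a) (r' * (rho f p - (1 + e) * (1 / p)))
    have i2 := abs_add_le (t p - (r' * x + rho f p * r')) (r' * a)
    have i3 : |r' * a| ≤ 3 * A * z := by
      rw [abs_mul]
      calc |r'| * |a| ≤ 1 * (3 * A * z) := by gcongr
        _ = _ := one_mul _
    have i4 : |r' * (rho f p - (1 + e) * (1 / p))| ≤ CZ * z := by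
      rw [abs_mul]
      calc _ ≤ 1 * (CZ * z) := by gcongr
        _ = _ := one_mul _
    have e2 : (3 * A + β * A + CZ) * z = 3 * A * z + β * A * z + CZ * z := by ring
    rw [e2]
    linarith

/-- The prime sums of one member. -/
theorem member (P : MvPolynomial ι ℤ)
    (hP : ∀ (K : Type) [Field K] (c : ι → K), MvPolynomial.eval₂ (Int.castRingHom K) c P ≠ 0 →
      IsSmooth (lform (n := 2 * m + 1) f c)) (hC1 : 0 ≤ CZ) (e : ℝ)
    (hZ : ∀ p : ℕ, p.Prime → |zc f p - e * (p : ℝ) ^ m| ≤ CZ * (p : ℝ) ^ ((m : ℝ) - 1 / 2))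
    (hZ' : ∀ p : ℕ, p.Prime → zc f p ≤ (|e| + CZ) * (p : ℝ) ^ m) {A : ℝ}
    (hF : Fam A (NN f p0) (BB P p0)) {b : ℕ} {β : ℝ} (hβ : β = b + (|e| + CZ) + 1)
    (c : ι → ℤ) (α : ℕ → Fin b → ℂ) (h : IsFrobenius f b c α)
    {g : ℕ → ℂ} (hg1 : ∀ p, ‖g p‖ ≤ 1) {q : ℕ} (hgq : ∀ p, p.Prime → p ∣ q → g p = 0) {ε τ : ℝ}
    (hε : 0 ≤ ε) {t r : ℕ → ℝ} (hd : Data f c α g q ε τ t r) {j0 J : ℕ} (hJ : j0 ≤ J) :
    |∑ p ∈ PR (2 ^ J), (t p - (1 + e) * r p)| ≤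
      (b + |1 + e|) * ∑ p ∈ PR (2 ^ j0), (1 : ℝ) / p +
      ∑ j ∈ Ico j0 J, |Zg g (cen (hN f P p0)) j c ((ε : ℂ) + τ * Complex.I)| +
      ∑ j ∈ Ico j0 J, |Zr (cen (gB P p0 β)) j c 0| + (3 * A + β * A + CZ) * SS +
      (b + |1 + e|) * ∑ j ∈ Ico j0 J, ∑ p ∈ blk j, (if p ∣ q then 1 / (p : ℝ) else 0) := by
  have hA := hF.A0
  have hβ0 : 0 ≤ β := by rw [hβ]; positivity
  rw [PR_split _ hJ]
  have a1 : |∑ p ∈ PR (2 ^ j0), (t p - (1 + e) * r p)| ≤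
      (b + |1 + e|) * ∑ p ∈ PR (2 ^ j0), (1 : ℝ) / p := by
    rw [mul_sum]
    refine (abs_sum_le_sum_abs _ _).trans (sum_le_sum fun p hp => ?_)
    have hpp := (mem_PR.mp hp).2
    have hp0 : (0 : ℝ) < p := by exact_mod_cast hpp.pos
    have b1 := hd.t_le p hpp
    have b2 : |(1 + e) * r p| ≤ |1 + e| * (1 / p) := by
      rw [abs_mul]
      have := hd.r_le p hpp
      gcongr
    have b4 := abs_sub (t p) ((1 + e) * r p)
    have b5 : (b + |1 + e|) * (1 / (p : ℝ)) = b / p + |1 + e| * (1 / p) := by ring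
    rw [b5]
    linarith
  have a2 : |∑ j ∈ Ico j0 J, ∑ p ∈ blk j, (t p - (1 + e) * r p)| ≤
      ∑ j ∈ Ico j0 J, |Zg g (cen (hN f P p0)) j c ((ε : ℂ) + τ * Complex.I)| +
      ∑ j ∈ Ico j0 J, |Zr (cen (gB P p0 β)) j c 0| + (3 * A + β * A + CZ) * SS +
      (b + |1 + e|) * ∑ j ∈ Ico j0 J, ∑ p ∈ blk j, (if p ∣ q then 1 / (p : ℝ) else 0) := by
    have c1 : ∀ j ∈ Ico j0 J, |∑ p ∈ blk j, (t p - (1 + e) * r p)| ≤
        |Zg g (cen (hN f P p0)) j c ((ε : ℂ) + τ * Complex.I)| + |Zr (cen (gB P p0 β)) j c 0| +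
        (3 * A + β * A + CZ) * ∑ p ∈ blk j, 1 / (p : ℝ) ^ ((3 : ℝ) / 2) +
        (b + |1 + e|) * ∑ p ∈ blk j, (if p ∣ q then 1 / (p : ℝ) else 0) := by
      intro j _
      have d1 : |∑ p ∈ blk j, (t p - (1 + e) * r p -
          (g p * (p : ℂ) ^ (-((ε : ℂ) + τ * Complex.I))).re * cen (hN f P p0) p (red p c))| ≤
          ∑ p ∈ blk j, (((p : ℂ) ^ (-(0 : ℂ))).re * cen (gB P p0 β) p (red p c) +
            (3 * A + β * A + CZ) * (1 / (p : ℝ) ^ ((3 : ℝ) / 2)) +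
            (b + |1 + e|) * (if p ∣ q then 1 / (p : ℝ) else 0)) := by
        refine (abs_sum_le_sum_abs _ _).trans (sum_le_sum fun p hp => ?_)
        exact one_prime P hP hC1 e hZ hZ' hF hβ c α h hg1 hgq hε hd p (mem_blk.mp hp).2
      rw [sum_sub_distrib, sum_add_distrib, sum_add_distrib, ← mul_sum, ← mul_sum] at d1
      have d2 : ∑ p ∈ blk j, (g p * (p : ℂ) ^ (-((ε : ℂ) + τ * Complex.I))).re *
          cen (hN f P p0) p (red p c) = Zg g (cen (hN f P p0)) j c ((ε : ℂ) + τ * Complex.I) := rfl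
      have d3 : ∑ p ∈ blk j, ((p : ℂ) ^ (-(0 : ℂ))).re * cen (gB P p0 β) p (red p c) =
        Zr (cen (gB P p0 β)) j c 0 := rfl
      rw [d2, d3] at d1
      have d4 := le_abs_self (Zr (cen (gB P p0 β)) j c 0)
      have d5 := abs_sub_abs_le_abs_sub (∑ p ∈ blk j, (t p - (1 + e) * r p))
        (Zg g (cen (hN f P p0)) j c ((ε : ℂ) + τ * Complex.I))
      linarith
    refine (abs_sum_le_sum_abs _ _).trans ((sum_le_sum c1).trans ?_)
    rw [sum_add_distrib, sum_add_distrib, sum_add_distrib, ← mul_sum, ← mul_sum]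
    have c2 : ∑ j ∈ Ico j0 J, ∑ p ∈ blk j, 1 / (p : ℝ) ^ ((3 : ℝ) / 2) ≤ SS := by
      rw [← blocksR (fun p => 1 / (p : ℝ) ^ ((3 : ℝ) / 2)) j0 J hJ]
      exact sum_le_SS _
    have c3 : 0 ≤ 3 * A + β * A + CZ := by positivity
    have c4 := mul_le_mul_of_nonneg_left c2 c3
    linarith
  have a3 := abs_add_le (∑ p ∈ PR (2 ^ j0), (t p - (1 + e) * r p))
    (∑ j ∈ Ico j0 J, ∑ p ∈ blk j, (t p - (1 + e) * r p))
  linarith

end

end Pool.Agent.H11.PT
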