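import Mathlib
import Pool.Agent.H11.PT.Member
import Pool.Agent.H11.PS.Main

/-!
# Power saving exceptional sets for the members of a linear system, for a family of twists
-/

set_option autoImplicit false

namespace Pool.Agent.H11.PT

open Finset Pool.Agent.Y722.HS Pool.Agent.Y722.LS Pool.Agent.N534.TL
open Pool.Agent.H11.TC (blk mem_blk card_blk gp grid gp_re card_grid exists_grid cpow_lip log_div_le)
open Pool.Agent.H11.PS (av cen hN gB BB_mem gB_nonneg gB_le Zr Good good_cen NN_le kL pow_bound' size' large'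
  powers exists_red mertens_PR)

/-- the primes of the conductor -/
theorem cond_sum {q j0 J : ℕ} {L : ℝ} (hq : 1 ≤ q) (hqL : Real.log q ≤ L) (hj0 : L ≤ 2 ^ j0) :
    ∑ j ∈ Ico j0 J, ∑ p ∈ blk j, (if p ∣ q then 1 / (p : ℝ) else 0) ≤ 2 := by
  classical
  have h0 : ∀ j ∈ Ico j0 J, ∑ p ∈ blk j, (if p ∣ q then 1 / (p : ℝ) else 0) ≤
      ((blk j ∩ q.primeFactors).card : ℝ) * (1 / 2 ^ j0) := by
    intro j hj
    rw [← sum_filter]
    have h1 : ∀ p ∈ (blk j).filter (fun p => p ∣ q), 1 / (p : ℝ) ≤ 1 / 2 ^ j0 := by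
      intro p hp
      rw [mem_filter] at hp
      have h2 := (mem_blk.mp hp.1).1.1
      have h3 : 2 ^ j0 ≤ p := (Nat.pow_le_pow_right (by norm_num) (mem_Ico.mp hj).1).trans h2.le
      apply one_div_le_one_div_of_le (by positivity)
      exact_mod_cast h3
    refine (sum_le_sum h1).trans ?_
    rw [sum_const, nsmul_eq_mul]
    have h4 : (blk j).filter (fun p => p ∣ q) ⊆ blk j ∩ q.primeFactors := by
      intro p hp
      rw [mem_filter] at hp
      rw [mem_inter, Nat.mem_primeFactors]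
      exact ⟨hp.1, (mem_blk.mp hp.1).2, hp.2, by omega⟩
    have h5 : (((blk j).filter (fun p => p ∣ q)).card : ℝ) ≤ (blk j ∩ q.primeFactors).card := by
      exact_mod_cast card_le_card h4
    gcongr
  refine (sum_le_sum h0).trans ?_
  rw [← sum_mul]
  have h1 : ∑ j ∈ Ico j0 J, ((blk j ∩ q.primeFactors).card : ℝ) ≤ q.primeFactors.card := by
    rw [← Nat.cast_sum, ← card_biUnion]
    · have : (Ico j0 J).biUnion (fun j => blk j ∩ q.primeFactors) ⊆ q.primeFactors := by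
        intro p hp
        rw [mem_biUnion] at hp
        obtain ⟨j, _, hp⟩ := hp
        exact (mem_inter.mp hp).2
      exact_mod_cast card_le_card this
    · intro i _ j _ hij
      rw [Function.onFun, disjoint_left]
      intro p hp hp'
      have h2 := (mem_blk.mp (mem_inter.mp hp).1).1
      have h3 := (mem_blk.mp (mem_inter.mp hp').1).1
      rcases lt_or_gt_of_ne hij with h | h
      · have : 2 ^ (i + 1) ≤ 2 ^ j := Nat.pow_le_pow_right (by norm_num) h
        omega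
      · have : 2 ^ (j + 1) ≤ 2 ^ i := Nat.pow_le_pow_right (by norm_num) h
        omega
  have h2 : 2 ^ q.primeFactors.card ≤ q := by
    have h3 : ∏ p ∈ q.primeFactors, 2 ≤ ∏ p ∈ q.primeFactors, p :=
      Finset.prod_le_prod' fun p hp => (Nat.prime_of_mem_primeFactors hp).two_le
    rw [prod_const] at h3
    exact h3.trans (Nat.le_of_dvd hq (Nat.prod_primeFactors_dvd q))
  have h3 : (q.primeFactors.card : ℝ) * Real.log 2 ≤ L := by
    refine le_trans ?_ hqL
    rw [← Real.log_pow]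
    apply Real.log_le_log (by positivity)
    exact_mod_cast h2
  have h4 := Real.log_two_gt_d9
  have h5 : (0 : ℝ) ≤ q.primeFactors.card := by positivity
  have h6 : (q.primeFactors.card : ℝ) ≤ 2 * L := by nlinarith
  calc (∑ j ∈ Ico j0 J, ((blk j ∩ q.primeFactors).card : ℝ)) * (1 / 2 ^ j0) ≤
      (2 * 2 ^ j0) * (1 / 2 ^ j0) := by
        gcongr
        linarith
    _ = 2 := by field_simp

variable {m : ℕ} {ι : Type} [Fintype ι] [DecidableEq ι]

/-- **The core**, for the large heights. -/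
theorem core {d : ℕ} (hd : 1 ≤ d) (f : ι → MvPolynomial (Fin (2 * m + 2)) ℤ)
    (hf : ∀ i, (f i).IsHomogeneous d) (c0 : ι → ℤ)
    (hs : IsSmooth (lform (n := 2 * m + 1) f (fun i => (c0 i : ℂ)))) (p0 : ℕ)
    (hsep : ∀ p : ℕ, p.Prime → p0 ≤ p → Separates (n := 2 * m + 1) f p) (e C0 : ℝ)
    (hZ : ∀ p : ℕ, p.Prime → p0 ≤ p → |zc f p - e * (p : ℝ) ^ m| ≤ C0 * (p : ℝ) ^ ((m : ℝ) - 1 / 2))
    (b : ℕ) (η : ℝ) (hη : 0 < η) (hη1 : η ≤ 1) :
    ∃ C : ℝ, 0 < C ∧ ∃ H1 : ℕ, ∀ H : ℕ, 16 ≤ H → H1 ≤ H →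
      (∀ c ∈ Pool.Agent.Y722.HS.box ι H, ∃ α : ℕ → Fin b → ℂ, IsFrobenius f b c α) →
      ∃ J : ℕ, η / 8 * Real.log H ≤ Real.log ((2 ^ J : ℕ) + 1) ∧ 1 ≤ J ∧ ∀ 𝒢 : Finset (ℕ → ℂ),
      (∀ g ∈ 𝒢, ∀ p, ‖g p‖ ≤ 1) →
      ∃ E ⊆ Pool.Agent.Y722.HS.box ι H,
        (E.card : ℝ) ≤ C * (𝒢.card + 1) * (H : ℝ) ^ ((Fintype.card ι : ℝ) - 1 / 2 + η) ∧
        ∀ c ∈ Pool.Agent.Y722.HS.box ι H \ E, ∀ α : ℕ → Fin b → ℂ, IsFrobenius f b c α → ∀ g ∈ 𝒢, ∀ q : ℕ,
          1 ≤ q → q ≤ H → (∀ p, p.Prime → p ∣ q → g p = 0) → ∀ ε τ : ℝ,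
          1 / Real.log H ≤ ε → ε ≤ 1 → |τ| ≤ (H : ℝ) ^ (η / 4) → ∀ t r : ℕ → ℝ,
          Data f c α g q ε τ t r →
          |∑ p ∈ PR (2 ^ J), (t p - (1 + e) * r p)| ≤
            (b + |1 + e|) * Real.log (Real.log (Real.log H)) + C := by
  classical
  obtain ⟨C1, hC1, hZ1⟩ := count_all f p0 e C0 hZ
  have hzc : ∀ p : ℕ, p.Prime → zc f p ≤ (|e| + C1) * (p : ℝ) ^ m := by
    intro p hp
    have h1 := hZ1 p hp
    have h2 := half_pow (m := m) hp
    have h3 : (0 : ℝ) ≤ (p : ℝ) ^ m := by positivity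
    have h4 := (abs_le.mp h1).2
    have h5 : e * (p : ℝ) ^ m ≤ |e| * (p : ℝ) ^ m := by
      gcongr
      exact le_abs_self e
    have h6 : C1 * (p : ℝ) ^ ((m : ℝ) - 1 / 2) ≤ C1 * (p : ℝ) ^ m := by gcongr
    linarith
  obtain ⟨P, hP0, hP⟩ := exists_disc (n := 2 * m + 1) f hd hf c0 hs
  have hCZ : 0 ≤ |e| + C1 := by positivity
  have hfam := fam (f := f) (p0 := p0) P c0 hP0 hCZ hsep hzc
  set A : ℝ := 4 + (1 + (|e| + C1)) ^ 2 + p0 + P.totalDegree + |(MvPolynomial.eval c0 P : ℝ)| with hA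
  have hA1 := hfam.A0
  set β : ℝ := b + (|e| + C1) + 1 with hβ
  have hβ1 : 1 ≤ β := by rw [hβ]; linarith [show (0 : ℝ) ≤ b by positivity]
  have hβ0 : 0 ≤ β := by linarith
  set B : ℝ := 2 * β with hB
  have hB0 : 0 < B := by linarith
  have hSS := SS_nonneg
  obtain ⟨H1, hlarge⟩ := large' η (56 * B ^ 2) hη
  obtain ⟨CM, hCM, hmert⟩ := mertens_PR
  set n := Fintype.card ι with hn
  set K1 : ℝ := (8 * B + 3) * (32 * B + 9) * (24 ^ n * 2) with hK1
  have hK10 : 0 ≤ K1 := by positivity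
  set K2 : ℝ := (3 * A + β * A + C1) * SS + (b + |1 + e|) * 2 with hK2
  have hK20 : 0 ≤ K2 := by positivity
  set K3 : ℝ := (b + |1 + e|) * (Real.log (48 / η + 1) + CM) with hK3
  have hK30 : 0 ≤ K3 := by
    have : 0 ≤ Real.log (48 / η + 1) := Real.log_nonneg (by have : 0 < 48 / η := by positivity
                                                            linarith)
    positivity
  refine ⟨K1 + K3 + 4 + K2, by positivity, H1, fun H hH16 hHH hex => ?_⟩
  have hH0 : (0 : ℝ) < H := by exact_mod_cast (by omega : 0 < H)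
  have hH1' : (1 : ℝ) ≤ H := by exact_mod_cast (by omega : 1 ≤ H)
  have hHn0 : (0 : ℝ) ≤ (H : ℝ) ^ ((n : ℝ) - 1 / 2 + η) := by positivity
  obtain ⟨_, hl1, hl2, hl3, hl4⟩ := hlarge H hHH
  obtain ⟨J, hJ1, hJ2, hJ3, hJ4, hJ5, hJ6⟩ := powers hη hη1 hH16 hl1 hl3
  have hLpos : 0 < Real.log H := Real.log_pos (by exact_mod_cast (by omega : 1 < H))
  have hL1 : 1 ≤ Real.log H := by
    have h1 := Real.add_one_le_exp (Real.log (Real.log H))
    rw [Real.exp_log hLpos] at h1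
    linarith
  set L := Real.log H with hL
  set j0 : ℕ := ⌈48 / η * Real.log L⌉₊ with hj0
  have h48 : 48 ≤ 48 / η := by
    rw [le_div_iff₀ hη]
    linarith
  have hj0a : 48 / η * Real.log L ≤ j0 := Nat.le_ceil _
  have hj0b : (j0 : ℝ) ≤ (48 / η + 1) * Real.log L := by
    have h1 : (j0 : ℝ) < 48 / η * Real.log L + 1 := Nat.ceil_lt_add_one (by positivity)
    linarith
  have hj02 : 2 ≤ j0 := by
    have h1 : (48 : ℝ) ≤ j0 := by nlinarith
    have h2 : 48 ≤ j0 := by exact_mod_cast h1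
    omega
  have hj0L : L ≤ 2 ^ j0 := by
    have h1 : Real.log L ≤ Real.log ((2 : ℝ) ^ j0) := by
      rw [Real.log_pow]
      have := Real.log_two_gt_d9
      nlinarith
    exact (Real.log_le_log_iff hLpos (by positivity)).mp h1
  set M : ℕ := ⌈8 * B * (J : ℝ) ^ 3⌉₊ + 1 with hM
  have hM1 : 8 * B * (J : ℝ) ^ 3 ≤ M := by
    have h1 := Nat.le_ceil (8 * B * (J : ℝ) ^ 3)
    rw [hM]
    push_cast
    linarith
  have hM2 : (M : ℝ) ≤ 8 * B * (J : ℝ) ^ 3 + 2 := by
    have h1 := Nat.ceil_lt_add_one (a := 8 * B * (J : ℝ) ^ 3) (by positivity)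
    rw [hM]
    push_cast
    linarith
  have hM0 : 0 < M := by omega
  set T : ℕ := ⌈(H : ℝ) ^ (η / 4)⌉₊ with hT
  have hT1 : (H : ℝ) ^ (η / 4) ≤ T := Nat.le_ceil _
  have hT2 : (T : ℝ) ≤ 2 * (H : ℝ) ^ (η / 4) := by
    have h1 := Nat.ceil_lt_add_one (a := (H : ℝ) ^ (η / 4)) (by positivity)
    have h2 : 1 ≤ (H : ℝ) ^ (η / 4) := Real.one_le_rpow hH1' (by positivity)
    linarith
  -- the two families are good
  have hgood1 : Good (cen (hN f P p0)) B J := by
    refine good_cen hβ0 fun j hj p hp z => ?_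
    have hpp := (mem_blk.mp hp).2
    haveI := Fact.mk hpp
    have h1 : p ≤ H := by
      calc p ≤ 2 ^ (j + 1) := (mem_blk.mp hp).1.2
        _ ≤ 2 ^ J := Nat.pow_le_pow_right (by norm_num) hj
        _ ≤ H := hJ3
    obtain ⟨c, hc, rfl⟩ := exists_red (ι := ι) hpp.pos h1 z
    obtain ⟨α, hα⟩ := hex c hc
    exact NN_le P hP hzc hα p
  have hgood2 : Good (cen (gB P p0 β)) B J := by
    refine good_cen hβ0 fun j hj p hp z => ?_
    rw [abs_of_nonneg (gB_nonneg P p0 hβ0 p z)]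
    exact gB_le P p0 hβ0 p z
  have hV : ∀ j ∈ Ico j0 J, (56 * B ^ 2 * kL H j * (j : ℝ) ^ 4) ^ kL H j ≤ (H : ℝ) ^ (η / 4) := by
    intro j hj
    have hjm := mem_Ico.mp hj
    refine pow_bound' hη (by positivity) hH16 (by omega) hL1 hl2 ?_ ?_
    · have : (j : ℝ) ≤ J := by exact_mod_cast hjm.2.le
      linarith
    · have : (j0 : ℝ) ≤ j := by exact_mod_cast hjm.1
      linarith
  refine ⟨J, hJ6, by omega, fun 𝒢 h𝒢 => ?_⟩
  have hcard1 : ∀ g ∈ 𝒢,
      ((Ex (ι := ι) g (cen (hN f P p0)) H j0 J M T).card : ℝ) ≤ K1 * (H : ℝ) ^ ((n : ℝ) - 1 / 2 + η) := by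
    intro g hg
    refine (card_Ex (h𝒢 g hg) hgood1 hB0 (by omega) (by omega) hJ2 (by positivity) hV).trans ?_
    exact size' hH1' hη hB0.le (hJ4.trans hl4) hM2 hT2 hJ1 n
  have hcard2 : ((Pool.Agent.H11.PS.Ex (ι := ι) (cen (gB P p0 β)) H j0 J M T).card : ℝ) ≤
      K1 * (H : ℝ) ^ ((n : ℝ) - 1 / 2 + η) := by
    refine (Pool.Agent.H11.PS.card_Ex hgood2 hB0 (by omega) (by omega) hJ2 (by positivity) hV).trans ?_
    exact size' hH1' hη hB0.le (hJ4.trans hl4) hM2 hT2 hJ1 n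
  refine ⟨(𝒢.biUnion fun g => Ex g (cen (hN f P p0)) H j0 J M T) ∪
    Pool.Agent.H11.PS.Ex (cen (gB P p0 β)) H j0 J M T, ?_, ?_, ?_⟩
  · apply union_subset
    · rw [biUnion_subset]
      intro g _
      exact filter_subset _ _
    · exact filter_subset _ _
  · have h3 := card_union_le (𝒢.biUnion fun g => Ex g (cen (hN f P p0)) H j0 J M T)
      (Pool.Agent.H11.PS.Ex (cen (gB P p0 β)) H j0 J M T)
    have h4 : ((𝒢.biUnion fun g => Ex g (cen (hN f P p0)) H j0 J M T).card : ℝ) ≤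
        𝒢.card * (K1 * (H : ℝ) ^ ((n : ℝ) - 1 / 2 + η)) := by
      have h5 : ((𝒢.biUnion fun g => Ex g (cen (hN f P p0)) H j0 J M T).card : ℝ) ≤
          ∑ g ∈ 𝒢, ((Ex g (cen (hN f P p0)) H j0 J M T).card : ℝ) := by
        have := card_biUnion_le (s := 𝒢) (t := fun g => Ex g (cen (hN f P p0)) H j0 J M T)
        exact_mod_cast this
      refine h5.trans ((sum_le_sum hcard1).trans ?_)
      rw [sum_const, nsmul_eq_mul]
    have h5 : ((((𝒢.biUnion fun g => Ex g (cen (hN f P p0)) H j0 J M T) ∪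
        Pool.Agent.H11.PS.Ex (cen (gB P p0 β)) H j0 J M T).card : ℕ) : ℝ) ≤
        (𝒢.biUnion fun g => Ex g (cen (hN f P p0)) H j0 J M T).card +
        (Pool.Agent.H11.PS.Ex (cen (gB P p0 β)) H j0 J M T).card := by
      exact_mod_cast h3
    have h6 : (0 : ℝ) ≤ 𝒢.card := by positivity
    calc _ ≤ K1 * (𝒢.card + 1) * (H : ℝ) ^ ((n : ℝ) - 1 / 2 + η) := by linarith
      _ ≤ _ := by
          gcongr
          linarith
  · intro c hc α hα g hg q hq1 hqH hgq ε τ hε0 hε1 hτ t r hd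
    rw [mem_sdiff, mem_union, not_or] at hc
    obtain ⟨hcb, hc1, hc2⟩ := hc
    have hc1' : c ∉ Ex g (cen (hN f P p0)) H j0 J M T := by
      intro h
      exact hc1 (mem_biUnion.mpr ⟨g, hg, h⟩)
    have hεp : 0 < ε := lt_of_lt_of_le (by positivity) hε0
    have h1 := block_small (h𝒢 g hg) hgood1 hB0 (by omega) hM0 hM1 hcb hc1' hεp.le hε1 (hτ.trans hT1)
    have h2 := Pool.Agent.H11.PS.block_small hgood2 hB0 (by omega) hM0 hM1 hcb hc2 (ε := 0) (τ := 0)
      le_rfl zero_le_one (by simp)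
    have h2' : ∑ j ∈ Ico j0 J, |Zr (cen (gB P p0 β)) j c 0| ≤ 2 := by
      simpa using h2
    have h3 := member (p0 := p0) P hP hC1 e hZ1 hzc hfam hβ c α hα (h𝒢 g hg) hgq hεp.le hd hJ5
    have h4 : ∑ p ∈ PR (2 ^ j0), (1 : ℝ) / p ≤ Real.log (Real.log L) + Real.log (48 / η + 1) + CM := by
      have h5 : 3 ≤ 2 ^ j0 := by
        calc 3 ≤ 2 ^ 2 := by norm_num
          _ ≤ 2 ^ j0 := Nat.pow_le_pow_right (by norm_num) hj02
      refine (hmert _ h5).trans ?_
      have h6 : Real.log (Real.log ((2 ^ j0 : ℕ) : ℝ)) ≤ Real.log (Real.log L) + Real.log (48 / η + 1) := by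
        have h7 : Real.log ((2 ^ j0 : ℕ) : ℝ) = j0 * Real.log 2 := by
          push_cast
          rw [Real.log_pow]
        have h8 : 0 < Real.log 2 := Real.log_pos (by norm_num)
        have h9 : (j0 : ℝ) * Real.log 2 ≤ Real.log L * (48 / η + 1) := by
          have := Real.log_two_lt_d9
          calc (j0 : ℝ) * Real.log 2 ≤ j0 * 1 := by gcongr; linarith
            _ ≤ _ := by linarith
        have h10 : (0 : ℝ) < j0 := by exact_mod_cast (by omega : 0 < j0)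
        have h11 : 0 < Real.log L := by linarith
        have h12 : 0 < 48 / η + 1 := by linarith
        rw [h7, ← Real.log_mul h11.ne' h12.ne']
        exact Real.log_le_log (by positivity) h9
      linarith
    refine h3.trans ?_
    have h5 : (b + |1 + e|) * ∑ p ∈ PR (2 ^ j0), (1 : ℝ) / p ≤
        (b + |1 + e|) * (Real.log (Real.log L) + Real.log (48 / η + 1) + CM) := by gcongr
    have h6 : (b + |1 + e|) * (Real.log (Real.log L) + Real.log (48 / η + 1) + CM) =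
        (b + |1 + e|) * Real.log (Real.log L) + K3 := by rw [hK3]; ring
    have h8 : Real.log q ≤ L := by
      apply Real.log_le_log
      · exact_mod_cast (by omega : 0 < q)
      · exact_mod_cast hqH
    have h9 : (b + |1 + e|) * ∑ j ∈ Ico j0 J, ∑ p ∈ blk j, (if p ∣ q then 1 / (p : ℝ) else 0) ≤
        (b + |1 + e|) * 2 := by
      have := cond_sum (J := J) hq1 h8 hj0L
      gcongr
    linarith

end Pool.Agent.H11.PT
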