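import Mathlib
import Pool.Graph.R_seed8.Y722.LS.Main

/-!
# Members of a linear system over number fields, twisted by Dirichlet characters: definitions
-/

set_option autoImplicit false

namespace Pool.Agent.H11.PT

open NumberField IsDedekindDomain Pool.Agent.Y722.HS Pool.Agent.Y722.LS

variable {m : ℕ} {ι : Type} [Fintype ι] [DecidableEq ι]

/-- The `β v j` are the roots of the Euler factors of `L(H^{2m}(X_c) ⊗ χ, s)` over the number field `K`, where the
`α p j` are the eigenvalues of Frobenius of `X_c` over `ℚ`, and `χ` is a Dirichlet character modulo `q`: at the primes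
`v` of `K` of degree one above a prime number `p` which does not divide `q` and modulo which `X_c` is smooth
`β v j = α p j * χ p`. At the other primes `β v j` is only bounded by `(N v) ^ m` (this covers the Euler factors at the
primes of higher degree, where the roots are the powers of `α p j * χ p`, at the primes of bad reduction, and at the
primes which divide `q`, for example `0`). -/
structure IsTwistOver (f : ι → MvPolynomial (Fin (2 * m + 2)) ℤ) (c : ι → ℤ) {b : ℕ} (α : ℕ → Fin b → ℂ)
    {K : Type} [Field K] [NumberField K] {q : ℕ} (χ : DirichletCharacter ℂ q)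
    (β : HeightOneSpectrum (𝓞 K) → Fin b → ℂ) : Prop where
  good : ∀ (v : HeightOneSpectrum (𝓞 K)) (p : ℕ) [Fact p.Prime], Ideal.absNorm v.asIdeal = p → ¬ p ∣ q →
    IsSmooth (MvPolynomial.map (algebraMap (ZMod p) (AlgebraicClosure (ZMod p)))
      (lform (n := 2 * m + 1) f (red p c))) → ∀ j, β v j = α p j * χ (p : ZMod q)
  bound : ∀ v j, ‖β v j‖ ≤ (Ideal.absNorm v.asIdeal : ℝ) ^ m

/-- The `γ v` are the roots of the Euler factors of the Hecke L-function `L(K, χ ∘ N, s)` of the number field `K`, for
example of the Dedekind zeta function for `χ = 1`; at the primes which divide `q` they are arbitrary numbers of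
absolute value at most one. -/
structure IsHecke {K : Type} [Field K] [NumberField K] {q : ℕ} (χ : DirichletCharacter ℂ q)
    (γ : HeightOneSpectrum (𝓞 K) → ℂ) : Prop where
  good : ∀ v : HeightOneSpectrum (𝓞 K), (Ideal.absNorm v.asIdeal).Coprime q →
    γ v = χ ((Ideal.absNorm v.asIdeal : ℕ) : ZMod q)
  bound : ∀ v, ‖γ v‖ ≤ 1

end Pool.Agent.H11.PT
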