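import Mathlib
import Pool.Agent.H11.TC.Euler
import Pool.Agent.H11.TC.Count

/-!
# Counting the number fields of bounded degree and discriminant, by their primes of degree one
-/

set_option autoImplicit false

namespace Pool.Agent.H11.PT

open NumberField IsDedekindDomain Finset
open Pool.Agent.H921R2.TatePole (nm below deg R nm_eq R_le)
open scoped IntermediateField NNReal

/-! ### The number of primes of degree one is an invariant of the field -/

section
variable {K : Type} [Field K] [NumberField K]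

theorem nm_iff (v : HeightOneSpectrum (𝓞 K)) (p : Nat.Primes) :
    nm v = (p : ℕ) ↔ below v = p ∧ deg v = 1 := by
  constructor
  · intro h
    have h1 : below v = p := by
      apply Subtype.ext
      change (Ideal.absNorm v.asIdeal).minFac = (p : ℕ)
      change Ideal.absNorm v.asIdeal = (p : ℕ) at h
      rw [h, Nat.Prime.minFac_eq p.2]
    refine ⟨h1, ?_⟩
    unfold deg
    rw [h1]
    change Ideal.absNorm v.asIdeal = (p : ℕ) at h
    rw [h, Nat.Prime.factorization_self p.2]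
  · rintro ⟨h1, h2⟩
    have := (nm_eq v).1
    rw [this, h1, h2, pow_one]

theorem R_eq (p : Nat.Primes) : R K p = Nat.card {v : HeightOneSpectrum (𝓞 K) // nm v = (p : ℕ)} := by
  classical
  have h1 : R K p = Nat.card {v : {v : HeightOneSpectrum (𝓞 K) // below v = p} // deg v.1 = 1} := by
    rw [Nat.card_eq_fintype_card, Fintype.card_subtype]
    rfl
  rw [h1]
  apply Nat.card_congr
  exact
    { toFun := fun v => ⟨v.1.1, (nm_iff _ _).mpr ⟨v.1.2, v.2⟩⟩
      invFun := fun v => ⟨⟨v.1, ((nm_iff _ _).mp v.2).1⟩, ((nm_iff _ _).mp v.2).2⟩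
      left_inv := fun v => rfl
      right_inv := fun v => rfl }

end

/-- the image of a prime under an isomorphism -/
def pushv {A B : Type} [CommRing A] [CommRing B] (E : A ≃+* B) (v : HeightOneSpectrum A) :
    HeightOneSpectrum B where
  asIdeal := v.asIdeal.comap (E.symm : B →+* A)
  isPrime := by
    have := v.isPrime
    exact Ideal.comap_isPrime _ _
  ne_bot := by
    intro h
    apply v.ne_bot
    rw [← Ideal.comap_of_equiv (I := v.asIdeal) E, h]
    ext x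
    rw [Ideal.mem_comap, Ideal.mem_bot, Ideal.mem_bot]
    exact E.map_eq_zero_iff

theorem pushv_pushv {A B : Type} [CommRing A] [CommRing B] (E : A ≃+* B) (v : HeightOneSpectrum A) :
    pushv E.symm (pushv E v) = v := by
  apply HeightOneSpectrum.ext
  change (v.asIdeal.comap (E.symm : B →+* A)).comap (E.symm.symm : A →+* B) = v.asIdeal
  rw [RingEquiv.symm_symm]
  exact Ideal.comap_of_equiv E

theorem nm_pushv {K K' : Type} [Field K] [NumberField K] [Field K'] [NumberField K'] (E : 𝓞 K ≃+* 𝓞 K')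
    (v : HeightOneSpectrum (𝓞 K)) : nm (pushv E v) = nm v := by
  unfold nm
  rw [Ideal.absNorm_apply, Ideal.absNorm_apply, Submodule.cardQuot_apply, Submodule.cardQuot_apply]
  refine Nat.card_congr (Ideal.quotientEquiv v.asIdeal (pushv E v).asIdeal E ?_).symm.toEquiv
  exact (Ideal.map_comap_of_equiv E).symm

theorem R_congr {K K' : Type} [Field K] [NumberField K] [Field K'] [NumberField K'] (e : K ≃+* K')
    (p : Nat.Primes) : R K p = R K' p := by
  rw [R_eq, R_eq]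
  set E : 𝓞 K ≃+* 𝓞 K' := RingOfIntegers.mapRingEquiv e
  apply Nat.card_congr
  exact
    { toFun := fun v => ⟨pushv E v.1, by rw [nm_pushv]; exact v.2⟩
      invFun := fun v => ⟨pushv E.symm v.1, by rw [nm_pushv]; exact v.2⟩
      left_inv := fun v => Subtype.ext (pushv_pushv E v.1)
      right_inv := fun v => Subtype.ext (pushv_pushv E.symm v.1) }

/-- the function `p ↦ R K p` on the natural numbers -/
noncomputable def rf (K : Type) [Field K] [NumberField K] (p : ℕ) : ℕ :=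
  if h : p.Prime then R K ⟨p, h⟩ else 0

theorem rf_congr {K K' : Type} [Field K] [NumberField K] [Field K'] [NumberField K'] (e : K ≃+* K') :
    rf K = rf K' := by
  funext p
  unfold rf
  split_ifs with h
  · exact R_congr e _
  · rfl

theorem rf_le (K : Type) [Field K] [NumberField K] (p : ℕ) : rf K p ≤ Module.finrank ℚ K := by
  unfold rf
  split_ifs
  · exact R_le _
  · exact Nat.zero_le _

/-! ### Fields with the same minimal polynomial are isomorphic -/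

theorem equiv_of_minpoly {K K' : Type} [Field K] [NumberField K] [Field K'] [NumberField K']
    (θ : 𝓞 K) (θ' : 𝓞 K') (h : ℚ⟮(θ : K)⟯ = ⊤) (h' : ℚ⟮(θ' : K')⟯ = ⊤)
    (hm : minpoly ℤ (θ : K) = minpoly ℤ (θ' : K')) : Nonempty (K ≃+* K') := by
  have e1 : minpoly ℚ (θ : K) = minpoly ℚ (θ' : K') := by
    rw [minpoly.isIntegrallyClosed_eq_field_fractions' ℚ θ.isIntegral_coe,
      minpoly.isIntegrallyClosed_eq_field_fractions' ℚ θ'.isIntegral_coe, hm]
  have i1 : IsIntegral ℚ (θ : K) := θ.isIntegral_coe.tower_top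
  have i2 : IsIntegral ℚ (θ' : K') := θ'.isIntegral_coe.tower_top
  have a1 := (IntermediateField.adjoinRootEquivAdjoin ℚ i1).trans
    ((IntermediateField.equivOfEq h).trans IntermediateField.topEquiv)
  have a2 := (IntermediateField.adjoinRootEquivAdjoin ℚ i2).trans
    ((IntermediateField.equivOfEq h').trans IntermediateField.topEquiv)
  rw [e1] at a1
  exact ⟨(a1.symm.trans a2).toRingEquiv⟩

/-- the bound for the coefficients -/
noncomputable def Bd (D N : ℕ) : ℕ := ⌈(Real.sqrt N * 2 ^ D + 2) ^ D * (D.choose (D / 2) : ℝ)⌉₊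

/-! ### Generators of small height (Minkowski, Hermite) -/

section Hermite

open NumberField.mixedEmbedding Polynomial
open scoped ENNReal

variable {K : Type} [Field K] [NumberField K]

theorem minkowski_lt {D N : ℕ} (hD : Module.finrank ℚ K ≤ D) (hN : |discr K| ≤ N) :
    minkowskiBound K ↑1 < ((NNReal.sqrt N * (2 : ℝ≥0) ^ D + 1 : ℝ≥0) : ℝ≥0∞) := by
  have h0 : NNReal.sqrt N * (2 : ℝ≥0) ^ D < NNReal.sqrt N * (2 : ℝ≥0) ^ D + 1 := lt_add_one _
  refine lt_of_le_of_lt ?_ (ENNReal.coe_lt_coe.mpr h0)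
  rw [minkowskiBound, volume_fundamentalDomain_fractionalIdealLatticeBasis,
    Units.val_one, FractionalIdeal.absNorm_one, Rat.cast_one,
    ENNReal.ofReal_one, one_mul, mixedEmbedding.finrank, volume_fundamentalDomain_latticeBasis,
    ENNReal.coe_mul, ENNReal.coe_pow, ENNReal.coe_ofNat,
    show ((NNReal.sqrt N : ℝ≥0) : ℝ≥0∞) = (1 : ℝ≥0∞) * NNReal.sqrt N by rw [one_mul]]
  gcongr
  · exact pow_le_one₀ (by positivity) (by simp)
  · rwa [← NNReal.coe_le_coe, coe_nnnorm, Int.norm_eq_abs, ← Int.cast_abs,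
      NNReal.coe_natCast, ← Int.cast_natCast, Int.cast_le]
  · exact one_le_two

theorem coeff_le {D N : ℕ} (hD : Module.finrank ℚ K ≤ D) {x : 𝓞 K} {B : ℝ} (hB : 1 ≤ B)
    (hBN : B ≤ Real.sqrt N * 2 ^ D + 2)
    (hx : ∀ w : InfinitePlace K, w x ≤ B) (i : ℕ) : |(minpoly ℤ (x : K)).coeff i| ≤ (Bd D N : ℤ) := by
  have hxi := x.isIntegral_coe
  have h1 := Embeddings.coeff_bdd_of_norm_le ((InfinitePlace.le_iff_le (x : K) _).mp hx) i
  have h2 : ‖(minpoly ℚ (x : K)).coeff i‖ = |((minpoly ℤ (x : K)).coeff i : ℝ)| := by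
    rw [minpoly.isIntegrallyClosed_eq_field_fractions' ℚ hxi, coeff_map, eq_intCast,
      Int.norm_cast_rat, Int.norm_eq_abs]
  rw [h2, max_eq_left hB] at h1
  have h3 : |((minpoly ℤ (x : K)).coeff i : ℝ)| ≤ Bd D N := by
    refine h1.trans ?_
    refine le_trans ?_ (Nat.le_ceil _)
    have h4 : ((Module.finrank ℚ K).choose (Module.finrank ℚ K / 2) : ℝ) ≤ D.choose (D / 2) := by
      exact_mod_cast (Nat.choose_le_choose _ hD).trans (Nat.choose_le_middle _ _)
    calc B ^ Module.finrank ℚ K * ((Module.finrank ℚ K).choose (Module.finrank ℚ K / 2) : ℝ) ≤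
        B ^ D * (D.choose (D / 2) : ℝ) := by gcongr
      _ ≤ _ := by gcongr
  rw [← Int.cast_abs] at h3
  exact_mod_cast h3

theorem exists_gen {D N : ℕ} (hD : Module.finrank ℚ K ≤ D) (hN : |discr K| ≤ N) :
    ∃ θ : 𝓞 K, ℚ⟮(θ : K)⟯ = ⊤ ∧ ∀ i, |(minpoly ℤ (θ : K)).coeff i| ≤ (Bd D N : ℤ) := by
  set B : ℝ≥0 := NNReal.sqrt N * (2 : ℝ≥0) ^ D + 1 with hB
  have hB1 : (1 : ℝ) ≤ B := by
    rw [hB]
    push_cast
    have : (0 : ℝ) ≤ Real.sqrt N * 2 ^ D := by positivity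
    linarith
  have hBr : (B : ℝ) = Real.sqrt N * 2 ^ D + 1 := by
    rw [hB]
    push_cast
    rfl
  have hmink := minkowski_lt hD hN
  obtain ⟨w₀⟩ := (inferInstance : Nonempty (InfinitePlace K))
  rcases InfinitePlace.isReal_or_isComplex w₀ with hw | hw
  · have h1 : minkowskiBound K ↑1 < (convexBodyLTFactor K) * B := by
      calc minkowskiBound K 1 < B := hmink
        _ = 1 * B := by rw [one_mul]
        _ ≤ convexBodyLTFactor K * B := by gcongr; exact mod_cast one_le_convexBodyLTFactor K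
    obtain ⟨x, hx₁, hx₂⟩ := exists_primitive_element_lt_of_isReal K hw h1
    refine ⟨x, hx₁, coeff_le hD hB1 (by rw [hBr]; linarith) fun w => ?_⟩
    refine (hx₂ w).le.trans ?_
    rw [NNReal.coe_max]
    exact max_le le_rfl hB1
  · have h1 : minkowskiBound K ↑1 < (convexBodyLT'Factor K) * B := by
      calc minkowskiBound K 1 < B := hmink
        _ = 1 * B := by rw [one_mul]
        _ ≤ convexBodyLT'Factor K * B := by gcongr; exact mod_cast one_le_convexBodyLT'Factor K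
    obtain ⟨x, hx₁, hx₂⟩ := exists_primitive_element_lt_of_isComplex K hw h1
    have h2 : Real.sqrt (1 + (B : ℝ) ^ 2) ≤ B + 1 := by
      rw [Real.sqrt_le_left (by linarith)]
      nlinarith
    refine ⟨x, hx₁, coeff_le (B := B + 1) hD (by linarith) (by rw [hBr]; linarith) fun w => ?_⟩
    refine (hx₂ w).le.trans ?_
    exact h2

end Hermite

/-! ### The family -/

section Family

open Polynomial

theorem finset_of_rel {A B : Type} (s : Finset A) (P : A → B → Prop)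
    (h : ∀ a b b', P a b → P a b' → b = b') :
    ∃ t : Finset B, t.card ≤ s.card ∧ ∀ a ∈ s, ∀ b, P a b → b ∈ t := by
  classical
  by_cases hB : Nonempty B
  · obtain ⟨b0⟩ := hB
    refine ⟨s.image fun a => if h : ∃ b, P a b then h.choose else b0, card_image_le, fun a ha b hb => ?_⟩
    rw [mem_image]
    refine ⟨a, ha, ?_⟩
    have he : ∃ b, P a b := ⟨b, hb⟩
    rw [dif_pos he]
    exact h a _ _ he.choose_spec hb
  · refine ⟨∅, by simp, fun a _ b _ => absurd ⟨b⟩ hB⟩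

/-- the function of a number field and a Dirichlet character -/
noncomputable def gK (D : ℕ) (K : Type) [Field K] [NumberField K] {q : ℕ} (χ : DirichletCharacter ℂ q)
    (p : ℕ) : ℂ := ((rf K p : ℂ) / D) * χ (p : ZMod q)

theorem gK_le {D : ℕ} {K : Type} [Field K] [NumberField K] (hD : Module.finrank ℚ K ≤ D) {q : ℕ}
    (χ : DirichletCharacter ℂ q) (p : ℕ) : ‖gK D K χ p‖ ≤ 1 := by
  have h0 : 0 < Module.finrank ℚ K := Module.finrank_pos
  have hD0 : (0 : ℝ) < D := by exact_mod_cast (by omega : 0 < D)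
  have h1 : (rf K p : ℝ) ≤ D := by exact_mod_cast (rf_le K p).trans hD
  unfold gK
  rw [norm_mul, norm_div, Complex.norm_natCast, Complex.norm_natCast]
  have h2 := χ.norm_le_one (p : ZMod q)
  have h3 : (rf K p : ℝ) / D ≤ 1 := by
    rw [div_le_one hD0]
    exact h1
  calc (rf K p : ℝ) / D * ‖χ (p : ZMod q)‖ ≤ 1 * 1 := by gcongr
    _ = 1 := one_mul 1

theorem card_chars (Q : ℕ) : ∃ t : Finset (Σ q : ℕ, DirichletCharacter ℂ q), (t.card : ℝ) ≤ (Q : ℝ) ^ 2 ∧
    ∀ q, 1 ≤ q → q ≤ Q → ∀ χ : DirichletCharacter ℂ q, (⟨q, χ⟩ : Σ q : ℕ, DirichletCharacter ℂ q) ∈ t := by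
  classical
  refine ⟨(Icc 1 Q).sigma fun _ => univ, ?_, fun q h1 h2 χ => ?_⟩
  · rw [card_sigma]
    have h1 : ∀ q ∈ Icc 1 Q, (univ : Finset (DirichletCharacter ℂ q)).card ≤ Q := by
      intro q hq
      rw [mem_Icc] at hq
      haveI : NeZero q := ⟨by omega⟩
      rw [card_univ, ← Nat.card_eq_fintype_card,
        DirichletCharacter.card_eq_totient_of_hasEnoughRootsOfUnity ℂ q]
      exact (Nat.totient_le q).trans hq.2
    have h2 : ∑ q ∈ Icc 1 Q, (univ : Finset (DirichletCharacter ℂ q)).card ≤ Q * Q := by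
      refine (sum_le_sum h1).trans ?_
      rw [sum_const, smul_eq_mul, Nat.card_Icc]
      simp
    have h3 : ((∑ q ∈ Icc 1 Q, (univ : Finset (DirichletCharacter ℂ q)).card : ℕ) : ℝ) ≤ Q * Q := by
      exact_mod_cast h2
    rw [sq]
    exact h3
  · rw [mem_sigma, mem_Icc]
    exact ⟨⟨h1, h2⟩, mem_univ _⟩

theorem card_fields (D N : ℕ) : ∃ t : Finset (ℕ → ℕ), t.card ≤ (2 * Bd D N + 1) ^ (D + 1) ∧
    ∀ (K : Type) [Field K] [NumberField K], Module.finrank ℚ K ≤ D → |discr K| ≤ N → rf K ∈ t := by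
  classical
  obtain ⟨t, ht1, ht2⟩ := finset_of_rel
    (Fintype.piFinset fun _ : Fin (D + 1) => Icc (-(Bd D N : ℤ)) (Bd D N))
    (fun (a : Fin (D + 1) → ℤ) (r : ℕ → ℕ) => ∃ (K : Type) (_ : Field K) (_ : NumberField K) (θ : 𝓞 K),
      ℚ⟮(θ : K)⟯ = ⊤ ∧ Module.finrank ℚ K ≤ D ∧
      (∀ i : Fin (D + 1), (minpoly ℤ (θ : K)).coeff i = a i) ∧ r = rf K) (by
    rintro a r r' ⟨K, i1, i2, θ, h1, h2, h3, rfl⟩ ⟨K', i1', i2', θ', h1', h2', h3', rfl⟩
    have hdeg : ∀ (F : Type) [Field F] [NumberField F] (x : 𝓞 F), Module.finrank ℚ F ≤ D →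
        ∀ i, D < i → (minpoly ℤ (x : F)).coeff i = 0 := by
      intro F _ _ x hF i hi
      apply coeff_eq_zero_of_natDegree_lt
      have e1 : (minpoly ℤ (x : F)).natDegree = (minpoly ℚ (x : F)).natDegree := by
        rw [minpoly.isIntegrallyClosed_eq_field_fractions' ℚ x.isIntegral_coe,
          (minpoly.monic x.isIntegral_coe).natDegree_map]
      rw [e1]
      have := minpoly.natDegree_le (A := ℚ) (x : F)
      omega
    have hm : minpoly ℤ (θ : K) = minpoly ℤ (θ' : K') := by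
      ext i
      by_cases hi : i < D + 1
      · have a1 := h3 ⟨i, hi⟩
        have a2 := h3' ⟨i, hi⟩
        simp only at a1 a2
        rw [a1, a2]
      · rw [hdeg K θ h2 i (by omega), hdeg K' θ' h2' i (by omega)]
    obtain ⟨e⟩ := equiv_of_minpoly θ θ' h1 h1' hm
    exact rf_congr e)
  refine ⟨t, ht1.trans ?_, fun K _ _ hD hN => ?_⟩
  · rw [Fintype.card_piFinset]
    simp only [prod_const, card_univ, Fintype.card_fin, Int.card_Icc]
    apply Nat.pow_le_pow_left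
    omega
  · obtain ⟨θ, h1, h2⟩ := exists_gen hD hN
    refine ht2 (fun i => (minpoly ℤ (θ : K)).coeff i) ?_ _ ⟨K, _, _, θ, h1, hD, fun i => rfl, rfl⟩
    rw [Fintype.mem_piFinset]
    intro i
    rw [mem_Icc]
    exact abs_le.mp (h2 i)

theorem family (D N Q : ℕ) : ∃ 𝒢 : Finset (ℕ → ℂ),
    (𝒢.card : ℝ) ≤ (2 * Bd D N + 1) ^ (D + 1) * (Q : ℝ) ^ 2 ∧ (∀ g ∈ 𝒢, ∀ p, ‖g p‖ ≤ 1) ∧
    ∀ (K : Type) [Field K] [NumberField K], Module.finrank ℚ K ≤ D → |discr K| ≤ N →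
      ∀ q, 1 ≤ q → q ≤ Q → ∀ χ : DirichletCharacter ℂ q, gK D K χ ∈ 𝒢 := by
  classical
  obtain ⟨t1, h1, h2⟩ := card_fields D N
  obtain ⟨t2, h3, h4⟩ := card_chars Q
  refine ⟨((t1 ×ˢ t2).image fun x => fun p => ((x.1 p : ℂ) / D) * x.2.2 (p : ZMod x.2.1)).filter
    fun g => ∀ p, ‖g p‖ ≤ 1, ?_, ?_, ?_⟩
  · have h5 := (card_filter_le ((t1 ×ˢ t2).image fun (x : (ℕ → ℕ) × (Σ q : ℕ, DirichletCharacter ℂ q)) =>
      fun p : ℕ => ((x.1 p : ℂ) / D) * x.2.2 (p : ZMod x.2.1)) fun g => ∀ p, ‖g p‖ ≤ 1).trans card_image_le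
    rw [card_product] at h5
    have h6 : ((t1.card * t2.card : ℕ) : ℝ) ≤ (2 * Bd D N + 1) ^ (D + 1) * (Q : ℝ) ^ 2 := by
      push_cast
      have : (t1.card : ℝ) ≤ (2 * Bd D N + 1) ^ (D + 1) := by exact_mod_cast h1
      gcongr
    refine le_trans ?_ h6
    exact_mod_cast h5
  · intro g hg
    exact (mem_filter.mp hg).2
  · intro K _ _ hD hN q hq1 hq2 χ
    rw [mem_filter, mem_image]
    refine ⟨⟨(rf K, ⟨q, χ⟩), ?_, rfl⟩, gK_le hD χ⟩
    rw [mem_product]
    exact ⟨h2 K hD hN, h4 q hq1 hq2 χ⟩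

end Family

/-! ### The size of the family -/

theorem Bd_le (D : ℕ) : ∃ C : ℝ, 1 ≤ C ∧ ∀ (N : ℕ) (X : ℝ), 1 ≤ X → (N : ℝ) ≤ X →
    (2 * (Bd D N : ℝ) + 1) ^ (D + 1) ≤ C * X ^ ((D : ℝ) * (D + 1) / 2) := by
  set C1 : ℝ := (2 ^ D + 2) ^ D * (D.choose (D / 2) : ℝ) with hC1
  have hC10 : 0 ≤ C1 := by positivity
  refine ⟨(2 * C1 + 3) ^ (D + 1), ?_, fun N X hX hNX => ?_⟩
  · apply one_le_pow₀
    linarith
  have hX0 : 0 ≤ X := by linarith
  have hs : Real.sqrt N ≤ Real.sqrt X := Real.sqrt_le_sqrt hNX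
  have hs1 : 1 ≤ Real.sqrt X := Real.one_le_sqrt.mpr hX
  have hsD : 1 ≤ Real.sqrt X ^ D := one_le_pow₀ hs1
  have h1 : (Bd D N : ℝ) ≤ C1 * Real.sqrt X ^ D + 1 := by
    unfold Bd
    have h2 : (⌈(Real.sqrt N * 2 ^ D + 2) ^ D * (D.choose (D / 2) : ℝ)⌉₊ : ℝ) <
        (Real.sqrt N * 2 ^ D + 2) ^ D * (D.choose (D / 2) : ℝ) + 1 := Nat.ceil_lt_add_one (by positivity)
    have h3 : (Real.sqrt N * 2 ^ D + 2) ^ D ≤ (2 ^ D + 2) ^ D * Real.sqrt X ^ D := by
      rw [← mul_pow]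
      gcongr
      nlinarith [show (0 : ℝ) < 2 ^ D by positivity, Real.sqrt_nonneg (N : ℝ)]
    have h4 : (Real.sqrt N * 2 ^ D + 2) ^ D * (D.choose (D / 2) : ℝ) ≤
        (2 ^ D + 2) ^ D * Real.sqrt X ^ D * (D.choose (D / 2) : ℝ) := by gcongr
    have h5 : (2 ^ D + 2) ^ D * Real.sqrt X ^ D * (D.choose (D / 2) : ℝ) = C1 * Real.sqrt X ^ D := by
      rw [hC1]
      ring
    linarith
  have h2 : 2 * (Bd D N : ℝ) + 1 ≤ (2 * C1 + 3) * Real.sqrt X ^ D := by nlinarith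
  have h3 : (Real.sqrt X ^ D) ^ (D + 1) = X ^ ((D : ℝ) * (D + 1) / 2) := by
    rw [Real.sqrt_eq_rpow, ← Real.rpow_natCast, ← Real.rpow_natCast, ← Real.rpow_mul hX0, ← Real.rpow_mul hX0]
    congr 1
    push_cast
    ring
  calc (2 * (Bd D N : ℝ) + 1) ^ (D + 1) ≤ ((2 * C1 + 3) * Real.sqrt X ^ D) ^ (D + 1) := by gcongr
    _ = (2 * C1 + 3) ^ (D + 1) * X ^ ((D : ℝ) * (D + 1) / 2) := by rw [mul_pow, h3]

/-- the family for the bound `X` for the discriminant and the conductor -/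
theorem family' (D : ℕ) : ∃ C : ℝ, 1 ≤ C ∧ ∀ X : ℝ, 1 ≤ X → ∃ 𝒢 : Finset (ℕ → ℂ),
    (𝒢.card : ℝ) ≤ C * X ^ (((D : ℝ) * (D + 1) + 4) / 2) ∧ (∀ g ∈ 𝒢, ∀ p, ‖g p‖ ≤ 1) ∧
    ∀ (K : Type) [Field K] [NumberField K], Module.finrank ℚ K ≤ D → (|discr K| : ℝ) ≤ X →
      ∀ q : ℕ, 1 ≤ q → (q : ℝ) ≤ X → ∀ χ : DirichletCharacter ℂ q, gK D K χ ∈ 𝒢 := by
  obtain ⟨C, hC, h⟩ := Bd_le D
  refine ⟨C, hC, fun X hX => ?_⟩
  have hX0 : 0 < X := by linarith
  obtain ⟨𝒢, h1, h2, h3⟩ := family D ⌊X⌋₊ ⌊X⌋₊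
  have hfl : ((⌊X⌋₊ : ℕ) : ℝ) ≤ X := Nat.floor_le hX0.le
  refine ⟨𝒢, ?_, h2, fun K _ _ hD hd q hq1 hq2 χ => h3 K hD ?_ q hq1 (Nat.le_floor hq2) χ⟩
  · calc (𝒢.card : ℝ) ≤ (2 * Bd D ⌊X⌋₊ + 1) ^ (D + 1) * ((⌊X⌋₊ : ℕ) : ℝ) ^ 2 := h1
      _ ≤ (C * X ^ ((D : ℝ) * (D + 1) / 2)) * X ^ 2 := by
          have := h ⌊X⌋₊ X hX hfl
          gcongr
      _ = C * (X ^ ((D : ℝ) * (D + 1) / 2) * X ^ (2 : ℝ)) := by
          rw [← Real.rpow_natCast X 2]
          push_cast
          ring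
      _ = _ := by
          rw [← Real.rpow_add hX0]
          congr 2
          ring
  · have e1 : (|discr K| : ℝ) = ((discr K).natAbs : ℝ) := by
      rw [Nat.cast_natAbs, Int.cast_abs]
    rw [e1] at hd
    have h4 := Nat.le_floor hd
    rw [← Int.natCast_natAbs]
    exact_mod_cast h4

end Pool.Agent.H11.PT
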