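import Mathlib
import Pool.Agent.H11.PT.Defs
import Pool.Agent.H11.PT.Core
import Pool.Agent.H11.PT.Fields
import Pool.Agent.H11.TC.Euler

/-!
# The L-functions of the members of a linear system over all number fields of bounded degree
-/

set_option autoImplicit false

namespace Pool.Agent.H11.PT

open NumberField IsDedekindDomain Finset Pool.Agent.Y722.HS Pool.Agent.Y722.LS Pool.Agent.N534.TL
open Pool.Agent.H11.TC (nrm G G_le log_LFun ext ext_le cut LFun)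
open Pool.Agent.H921R2.TatePole (nm below deg R nm_eq R_le CK C0 w tsum_fiber nm_summable w_summable
  fiber_card_le below_le_nm)

section
variable {K : Type} [Field K] [NumberField K]

theorem CK_le : CK K ≤ Module.finrank ℚ K * C0 := by
  classical
  have h1 : Summable fun v : HeightOneSpectrum (𝓞 K) => (nm v : ℝ) ^ (-(2 : ℝ)) := nm_summable (by norm_num)
  unfold CK C0
  rw [tsum_fiber h1, ← tsum_mul_left]
  have h2 := Pool.Agent.H921R2.TatePole.summable_fiber h1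
  have h3 : Summable fun p : Nat.Primes => (Module.finrank ℚ K : ℝ) * ((p : ℕ) : ℝ) ^ (-(2 : ℝ)) := by
    apply Summable.mul_left
    exact w_summable (x := 2) (by norm_num)
  refine h2.tsum_le_tsum (fun p => ?_) h3
  have h4 : ∀ v : {v : HeightOneSpectrum (𝓞 K) // below v = p}, (nm v.1 : ℝ) ^ (-(2 : ℝ)) ≤
      ((p : ℕ) : ℝ) ^ (-(2 : ℝ)) := by
    intro v
    have hp : (0 : ℝ) < (p : ℕ) := by exact_mod_cast p.2.pos
    have h5 : ((p : ℕ) : ℝ) ≤ nm v.1 := by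
      have := below_le_nm v.1
      rw [v.2] at this
      exact_mod_cast this
    exact Real.rpow_le_rpow_of_nonpos hp h5 (by norm_num)
  refine (sum_le_sum fun v _ => h4 v).trans ?_
  rw [sum_const, nsmul_eq_mul, card_univ]
  have := fiber_card_le (K := K) p
  gcongr

theorem G_term (i N : ℕ) (β : HeightOneSpectrum (𝓞 K) → Fin N → ℂ) (ε τ : ℝ) (p : ℕ) (hp : p.Prime) (Z : ℂ)
    (hZ : ∀ v, nm v = p → ∑ j, β v j = Z) :
    ext (G β i τ) p * (p : ℝ) ^ (-(1 + ε)) =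
      ((rf K p : ℂ) * Z * (p : ℂ) ^ (-((i : ℂ) / 2 + 1 + ε + τ * Complex.I))).re := by
  classical
  have hp0 : (0 : ℝ) < p := by exact_mod_cast hp.pos
  have hpc : (p : ℂ) ≠ 0 := by exact_mod_cast hp.ne_zero
  unfold Pool.Agent.H11.TC.ext rf
  rw [dif_pos hp, dif_pos hp]
  have h1 : ∀ v : {v : HeightOneSpectrum (𝓞 K) // below v = (⟨p, hp⟩ : Nat.Primes)},
      (if deg v.1 = 1 then (∑ j, nrm β i τ v.1 j).re else 0) =
      if deg v.1 = 1 then (Z * (p : ℂ) ^ (-(((i : ℝ) / 2 : ℝ) + τ * Complex.I : ℂ))).re else 0 := by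
    intro v
    split_ifs with h
    · have h2 : nm v.1 = p := by
        have := (nm_iff v.1 ⟨p, hp⟩).mpr ⟨v.2, h⟩
        exact this
      congr 1
      unfold nrm
      rw [← sum_mul, hZ v.1 h2, h2]
    · rfl
  have hG : G β i τ ⟨p, hp⟩ = (R K ⟨p, hp⟩ : ℝ) *
      (Z * (p : ℂ) ^ (-(((i : ℝ) / 2 : ℝ) + τ * Complex.I : ℂ))).re := by
    unfold G
    simp only [h1]
    rw [← sum_filter, sum_const, nsmul_eq_mul]
    rfl
  have e1 : (p : ℂ) ^ (-((i : ℂ) / 2 + 1 + ε + τ * Complex.I)) =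
      (((p : ℝ) ^ (-(1 + ε)) : ℝ) : ℂ) * (p : ℂ) ^ (-(((i : ℝ) / 2 : ℝ) + τ * Complex.I : ℂ)) := by
    rw [Complex.ofReal_cpow hp0.le, Complex.ofReal_natCast, ← Complex.cpow_add _ _ hpc]
    congr 1
    push_cast
    ring
  rw [hG, e1]
  generalize R K ⟨p, hp⟩ = n
  set x : ℝ := (p : ℝ) ^ (-(1 + ε))
  set y : ℂ := (p : ℂ) ^ (-(((i : ℝ) / 2 : ℝ) + τ * Complex.I : ℂ))
  rw [show (n : ℂ) * Z * ((x : ℂ) * y) = ((n * x : ℝ) : ℂ) * (Z * y) by push_cast; ring,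
    Complex.re_ofReal_mul]
  ring

/-- the logarithm of the L-function and the sum over the primes up to `2 ^ J` -/
theorem log_cut (i N : ℕ) {β : HeightOneSpectrum (𝓞 K) → Fin N → ℂ}
    (hβ : ∀ v j, ‖β v j‖ ≤ (Ideal.absNorm v.asIdeal : ℝ) ^ ((i : ℝ) / 2)) {D : ℕ}
    (hD : Module.finrank ℚ K ≤ D) (ε τ : ℝ) (hε : 0 < ε) (hε1 : ε ≤ 1) {J : ℕ} (hJ : 1 ≤ J) {R' : ℝ}
    (hR : 16 / (ε * Real.log ((2 ^ J : ℕ) : ℝ)) ≤ R') :
    LFun β ((i : ℂ) / 2 + 1 + ε + τ * Complex.I) ≠ 0 ∧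
    |Real.log ‖LFun β ((i : ℂ) / 2 + 1 + ε + τ * Complex.I)‖ -
      ∑ p ∈ PR (2 ^ J), ext (G β i τ) p * (p : ℝ) ^ (-(1 + ε))| ≤ N * D * (2 * C0 + R') := by
  obtain ⟨h1, h2⟩ := log_LFun i N hβ ε τ hε
  refine ⟨h1, ?_⟩
  have hC0 := Pool.Agent.H921R2.TatePole.C0_nonneg
  have hDr : (Module.finrank ℚ K : ℝ) ≤ D := by exact_mod_cast hD
  have hG : ∀ p : Nat.Primes, |G β i τ p| ≤ N * D := by
    intro p
    refine (G_le hβ τ p).trans ?_
    have : (R K p : ℝ) ≤ D := by exact_mod_cast (R_le p).trans hD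
    gcongr
  have h3 := cut (by positivity) hG hε hε1 (2 ^ J) (by
    calc 2 = 2 ^ 1 := rfl
      _ ≤ 2 ^ J := Nat.pow_le_pow_right (by norm_num) hJ)
  have hPR : PR (2 ^ J) = (Icc 1 (2 ^ J)).filter Nat.Prime := by
    ext p
    rw [mem_PR, mem_filter, mem_Icc]
    constructor
    · rintro ⟨h2, h3⟩
      exact ⟨⟨h3.one_lt.le, h2⟩, h3⟩
    · rintro ⟨⟨_, h2⟩, h3⟩
      exact ⟨h2, h3⟩
  rw [hPR]
  have h4 : (N : ℝ) * CK K + N * Module.finrank ℚ K * C0 ≤ N * D * (2 * C0) := by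
    have h5 : CK K ≤ D * C0 := CK_le.trans (by gcongr)
    calc (N : ℝ) * CK K + N * Module.finrank ℚ K * C0 ≤ N * (D * C0) + N * D * C0 := by gcongr
      _ = _ := by ring
  have h6 : (N : ℝ) * D * (16 / (ε * Real.log ((2 ^ J : ℕ) : ℝ))) ≤ N * D * R' := by gcongr
  have h7 := abs_add_le (Real.log ‖LFun β ((i : ℂ) / 2 + 1 + ε + τ * Complex.I)‖ -
      ∑' p : Nat.Primes, G β i τ p * w (1 + ε) p)
    (∑' p : Nat.Primes, G β i τ p * w (1 + ε) p -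
      ∑ p ∈ (Icc 1 (2 ^ J)).filter Nat.Prime, ext (G β i τ) p * (p : ℝ) ^ (-(1 + ε)))
  rw [sub_add_sub_cancel] at h7
  have e : (N : ℝ) * D * (2 * C0 + R') = N * D * (2 * C0) + N * D * R' := by ring
  rw [e]
  linarith

end

variable {m : ℕ} {ι : Type} [Fintype ι] [DecidableEq ι]

/-- the prime sums of a twist over a number field -/
theorem data_of_twist {f : ι → MvPolynomial (Fin (2 * m + 2)) ℤ} {c : ι → ℤ} {b : ℕ} {α : ℕ → Fin b → ℂ}
    {K : Type} [Field K] [NumberField K] {D : ℕ} (hD : Module.finrank ℚ K ≤ D) {q : ℕ}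
    {χ : DirichletCharacter ℂ q} {β : HeightOneSpectrum (𝓞 K) → Fin b → ℂ} (hβ : IsTwistOver f c α χ β)
    {γ : HeightOneSpectrum (𝓞 K) → ℂ} (hγ : IsHecke χ γ) {ε : ℝ} (τ : ℝ) (hε : 0 ≤ ε) :
    Data f c α (gK D K χ) q ε τ
      (fun p => ext (G β (2 * m) τ) p * (p : ℝ) ^ (-(1 + ε)) / D)
      (fun p => ext (G (fun v (_ : Fin 1) => γ v) 0 τ) p * (p : ℝ) ^ (-(1 + ε)) / D) := by
  have h0 : 0 < Module.finrank ℚ K := Module.finrank_pos
  have hD0 : (0 : ℝ) < D := by exact_mod_cast (by omega : 0 < D)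
  have hDc : (D : ℂ) ≠ 0 := by exact_mod_cast (by omega : D ≠ 0)
  have hpε : ∀ p : ℕ, p.Prime → (p : ℝ) ^ (-(1 + ε)) ≤ 1 / p := by
    intro p hp
    have hp1 : (1 : ℝ) ≤ p := by exact_mod_cast hp.one_lt.le
    calc (p : ℝ) ^ (-(1 + ε)) ≤ (p : ℝ) ^ (-1 : ℝ) := Real.rpow_le_rpow_of_exponent_le hp1 (by linarith)
      _ = 1 / p := by rw [Real.rpow_neg_one, one_div]
  have hbound : ∀ (N : ℕ) (G' : Nat.Primes → ℝ), (∀ p, |G' p| ≤ N * R K p) → ∀ p : ℕ, p.Prime →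
      |ext G' p * (p : ℝ) ^ (-(1 + ε)) / D| ≤ N / p := by
    intro N G' hG p hp
    have hp0 : (0 : ℝ) < p := by exact_mod_cast hp.pos
    have h1 : |ext G' p| ≤ N * D := by
      apply ext_le (by positivity)
      intro p'
      refine (hG p').trans ?_
      have : (R K p' : ℝ) ≤ D := by exact_mod_cast (R_le p').trans hD
      gcongr
    rw [abs_div, abs_mul, abs_of_pos hD0, abs_of_nonneg (by positivity : 0 ≤ (p : ℝ) ^ (-(1 + ε))),
      div_le_iff₀ hD0]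
    calc |ext G' p| * (p : ℝ) ^ (-(1 + ε)) ≤ (N * D) * (1 / p) := by
          have := hpε p hp
          gcongr
      _ = _ := by ring
  have hβ' : ∀ v j, ‖β v j‖ ≤ (Ideal.absNorm v.asIdeal : ℝ) ^ (((2 * m : ℕ) : ℝ) / 2) := by
    intro v j
    have e : (((2 * m : ℕ) : ℝ) / 2) = (m : ℝ) := by push_cast; ring
    rw [e, Real.rpow_natCast]
    exact hβ.bound v j
  have hγ' : ∀ (v : HeightOneSpectrum (𝓞 K)) (_j : Fin 1), ‖γ v‖ ≤
      (Ideal.absNorm v.asIdeal : ℝ) ^ (((0 : ℕ) : ℝ) / 2) := by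
    intro v _
    simpa using hγ.bound v
  constructor
  · intro p hp
    exact hbound b _ (fun p => G_le hβ' τ p) p hp
  · intro p hp
    have := hbound 1 _ (fun p => G_le (β := fun v (_ : Fin 1) => γ v) hγ' τ p) p hp
    rw [Nat.cast_one] at this
    exact this
  · intro p hp hpq hsm
    haveI := Fact.mk hp
    have hZ : ∀ v : HeightOneSpectrum (𝓞 K), nm v = p → ∑ j, β v j = χ (p : ZMod q) * ∑ j, α p j := by
      intro v hv
      rw [mul_comm, sum_mul]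
      exact sum_congr rfl fun j _ => hβ.good v p hv hpq hsm j
    have h1 := G_term (2 * m) b β ε τ p hp _ hZ
    rw [h1, gK]
    have e1 : ((2 * m : ℕ) : ℂ) / 2 = (m : ℂ) := by push_cast; ring
    rw [e1]
    set z := (p : ℂ) ^ (-((m : ℂ) + 1 + ε + τ * Complex.I))
    rw [show (rf K p : ℂ) / D * χ (p : ZMod q) * (∑ j, α p j) * z =
      ((rf K p : ℂ) * (χ (p : ZMod q) * ∑ j, α p j) * z) / (D : ℝ) by push_cast; ring,
      Complex.div_ofReal_re]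
  · intro p hp hpq
    haveI := Fact.mk hp
    have hp0 : (0 : ℝ) < p := by exact_mod_cast hp.pos
    have hpc : (p : ℂ) ≠ 0 := by exact_mod_cast hp.ne_zero
    have hZ : ∀ v : HeightOneSpectrum (𝓞 K), nm v = p → ∑ _j : Fin 1, γ v = χ (p : ZMod q) := by
      intro v hv
      change Ideal.absNorm v.asIdeal = p at hv
      rw [Fin.sum_univ_one]
      have := hγ.good v (by rw [hv]; exact (Nat.Prime.coprime_iff_not_dvd hp).mpr hpq)
      rw [this, hv]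
    have h1 := G_term 0 1 (fun v (_ : Fin 1) => γ v) ε τ p hp _ hZ
    rw [h1, gK]
    have e1 : (p : ℂ) ^ (-(((0 : ℕ) : ℂ) / 2 + 1 + ε + τ * Complex.I)) =
        ((1 / p : ℝ) : ℂ) * (p : ℂ) ^ (-((ε : ℂ) + τ * Complex.I)) := by
      rw [show -(((0 : ℕ) : ℂ) / 2 + 1 + ε + τ * Complex.I) = -1 + -((ε : ℂ) + τ * Complex.I) by
        push_cast; ring, Complex.cpow_add _ _ hpc, Complex.cpow_neg_one]
      push_cast
      rw [one_div]
    rw [e1]
    set z := (p : ℂ) ^ (-((ε : ℂ) + τ * Complex.I))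
    rw [show (rf K p : ℂ) * χ (p : ZMod q) * (((1 / p : ℝ) : ℂ) * z) =
      ((1 / p : ℝ) : ℂ) * ((rf K p : ℂ) * χ (p : ZMod q) * z) by ring, Complex.re_ofReal_mul,
      show (rf K p : ℂ) / D * χ (p : ZMod q) * z = ((rf K p : ℂ) * χ (p : ZMod q) * z) / (D : ℝ) by
        push_cast; ring, Complex.div_ofReal_re]
    ring

/-- **The main theorem.** -/
theorem main {d : ℕ} (hd : 1 ≤ d) (f : ι → MvPolynomial (Fin (2 * m + 2)) ℤ)
    (hf : ∀ i, (f i).IsHomogeneous d) (c0 : ι → ℤ)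
    (hs : IsSmooth (lform (n := 2 * m + 1) f (fun i => (c0 i : ℂ)))) (p0 : ℕ)
    (hsep : ∀ p : ℕ, p.Prime → p0 ≤ p → Separates (n := 2 * m + 1) f p) (e C0 : ℝ)
    (hZ : ∀ p : ℕ, p.Prime → p0 ≤ p → |zc f p - e * (p : ℝ) ^ m| ≤ C0 * (p : ℝ) ^ ((m : ℝ) - 1 / 2))
    (b D : ℕ) (η κ : ℝ) (hη : 0 < η) (hη1 : η ≤ 1) (hκ : 0 ≤ κ) (hκ1 : κ ≤ 1) :
    ∃ C : ℝ, 0 < C ∧ ∀ H : ℕ, 16 ≤ H →
      (∀ c ∈ Pool.Agent.Y722.HS.box ι H, ∃ α : ℕ → Fin b → ℂ, IsFrobenius f b c α) →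
      ∃ E ⊆ Pool.Agent.Y722.HS.box ι H,
        (E.card : ℝ) ≤ C * (H : ℝ) ^ ((Fintype.card ι : ℝ) - 1 / 2 + η + ((D : ℝ) * (D + 1) + 4) / 2 * κ) ∧
        ∀ c ∈ Pool.Agent.Y722.HS.box ι H \ E, ∀ α : ℕ → Fin b → ℂ, IsFrobenius f b c α →
          ∀ (K : Type) [Field K] [NumberField K], Module.finrank ℚ K ≤ D →
          (|discr K| : ℝ) ≤ (H : ℝ) ^ κ → ∀ q : ℕ, 1 ≤ q → (q : ℝ) ≤ (H : ℝ) ^ κ →
          ∀ (χ : DirichletCharacter ℂ q) (β : HeightOneSpectrum (𝓞 K) → Fin b → ℂ)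
            (γ : HeightOneSpectrum (𝓞 K) → ℂ), IsTwistOver f c α χ β → IsHecke χ γ → ∀ ε τ : ℝ,
            1 / Real.log H ≤ ε → ε ≤ 1 → |τ| ≤ (H : ℝ) ^ (η / 4) →
            LFun β (m + 1 + ε + τ * Complex.I) ≠ 0 ∧
            LFun (fun v (_ : Fin 1) => γ v) (1 + ε + τ * Complex.I) ≠ 0 ∧
            |Real.log ‖LFun β (m + 1 + ε + τ * Complex.I)‖ -
              (1 + e) * Real.log ‖LFun (fun v (_ : Fin 1) => γ v) (1 + ε + τ * Complex.I)‖| ≤
              D * (b + |1 + e|) * Real.log (Real.log (Real.log H)) + C := by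
  classical
  obtain ⟨C1, hC1, H1, hcore⟩ := core hd f hf c0 hs p0 hsep e C0 hZ b η hη hη1
  obtain ⟨C2, hC2, hfam⟩ := family' D
  have hC00 := Pool.Agent.H921R2.TatePole.C0_nonneg
  set n := Fintype.card ι with hn
  set Cz : ℝ := Pool.Agent.H921R2.TatePole.C0 with hCz
  set R' : ℝ := 256 / η with hR'
  have hR0 : 0 < R' := by positivity
  set K2 : ℝ := (b + |1 + e|) * D * (2 * Cz + R') with hK2
  have hK20 : 0 ≤ K2 := by positivity
  refine ⟨C1 * (2 * C2) + 3 ^ n * (H1 + 1) + D * C1 + K2, by positivity, fun H hH16 hex => ?_⟩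
  have hH0 : (0 : ℝ) < H := by exact_mod_cast (by omega : 0 < H)
  have hH1' : (1 : ℝ) ≤ H := by exact_mod_cast (by omega : 1 ≤ H)
  have hκD : 0 ≤ ((D : ℝ) * (D + 1) + 4) / 2 * κ := by positivity
  by_cases hHH : H1 ≤ H
  swap
  · -- small heights
    refine ⟨Pool.Agent.Y722.HS.box ι H, Subset.rfl, ?_, fun c hc => by simp at hc⟩
    rw [card_box]
    push Not at hHH
    have h1 : (2 * (H : ℝ) + 1) ^ n ≤ 3 ^ n * (H : ℝ) ^ n := by
      rw [← mul_pow]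
      gcongr
      linarith
    have h2 : (H : ℝ) ^ n ≤ (H1 + 1) * (H : ℝ) ^ ((n : ℝ) - 1 / 2 + η + ((D : ℝ) * (D + 1) + 4) / 2 * κ) := by
      calc (H : ℝ) ^ n = (H : ℝ) ^ (n : ℝ) := (Real.rpow_natCast _ _).symm
        _ ≤ (H : ℝ) ^ (1 + ((n : ℝ) - 1 / 2 + η + ((D : ℝ) * (D + 1) + 4) / 2 * κ)) :=
            Real.rpow_le_rpow_of_exponent_le hH1' (by linarith)
        _ = (H : ℝ) * (H : ℝ) ^ ((n : ℝ) - 1 / 2 + η + ((D : ℝ) * (D + 1) + 4) / 2 * κ) := by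
            rw [Real.rpow_add hH0, Real.rpow_one]
        _ ≤ _ := by
            gcongr
            have : (H : ℝ) ≤ H1 := by exact_mod_cast hHH.le
            linarith
    calc (2 * (H : ℝ) + 1) ^ n ≤ 3 ^ n * (H : ℝ) ^ n := h1
      _ ≤ 3 ^ n * ((H1 + 1) * (H : ℝ) ^ ((n : ℝ) - 1 / 2 + η + ((D : ℝ) * (D + 1) + 4) / 2 * κ)) := by
          gcongr
      _ = (3 ^ n * (H1 + 1)) * (H : ℝ) ^ ((n : ℝ) - 1 / 2 + η + ((D : ℝ) * (D + 1) + 4) / 2 * κ) := by ring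
      _ ≤ _ := by
          gcongr
          have : 0 ≤ C1 * (2 * C2) + D * C1 + K2 := by positivity
          linarith
  obtain ⟨J, hJ1, hJ2, hE⟩ := hcore H hH16 hHH hex
  have hX1 : 1 ≤ (H : ℝ) ^ κ := Real.one_le_rpow hH1' hκ
  have hXH : (H : ℝ) ^ κ ≤ H := by
    calc (H : ℝ) ^ κ ≤ (H : ℝ) ^ (1 : ℝ) := Real.rpow_le_rpow_of_exponent_le hH1' hκ1
      _ = H := Real.rpow_one _
  obtain ⟨𝒢, hG1, hG2, hG3⟩ := hfam ((H : ℝ) ^ κ) hX1
  obtain ⟨E, hEb, hE1, hE2⟩ := hE 𝒢 hG2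
  refine ⟨E, hEb, ?_, ?_⟩
  · set Y : ℝ := ((H : ℝ) ^ κ) ^ (((D : ℝ) * (D + 1) + 4) / 2) with hY
    have hY1 : 1 ≤ Y := Real.one_le_rpow hX1 (by positivity)
    have hYe : Y = (H : ℝ) ^ (((D : ℝ) * (D + 1) + 4) / 2 * κ) := by
      rw [hY, ← Real.rpow_mul hH0.le]
      congr 1
      ring
    have h1 : (𝒢.card : ℝ) + 1 ≤ 2 * C2 * Y := by nlinarith
    calc (E.card : ℝ) ≤ C1 * (𝒢.card + 1) * (H : ℝ) ^ ((n : ℝ) - 1 / 2 + η) := hE1
      _ ≤ C1 * (2 * C2 * Y) * (H : ℝ) ^ ((n : ℝ) - 1 / 2 + η) := by gcongr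
      _ = C1 * (2 * C2) * ((H : ℝ) ^ ((n : ℝ) - 1 / 2 + η) * (H : ℝ) ^ (((D : ℝ) * (D + 1) + 4) / 2 * κ)) := by
          rw [hYe]
          ring
      _ = C1 * (2 * C2) * (H : ℝ) ^ ((n : ℝ) - 1 / 2 + η + ((D : ℝ) * (D + 1) + 4) / 2 * κ) := by
          rw [← Real.rpow_add hH0]
      _ ≤ _ := by
          gcongr
          have : 0 ≤ 3 ^ n * ((H1 : ℝ) + 1) + D * C1 + K2 := by positivity
          linarith
  · intro c hc α hα K _ _ hD hdisc q hq1 hq2 χ β γ hβ hγ ε τ hε0 hε1 hτ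
    have h0 : 0 < Module.finrank ℚ K := Module.finrank_pos
    have hD0 : (0 : ℝ) < D := by exact_mod_cast (by omega : 0 < D)
    have hLpos : 0 < Real.log H := Real.log_pos (by exact_mod_cast (by omega : 1 < H))
    have hεp : 0 < ε := lt_of_lt_of_le (by positivity) hε0
    have hgq : ∀ p : ℕ, p.Prime → p ∣ q → gK D K χ p = 0 := by
      intro p hp hpq
      unfold gK
      have h1 : χ (p : ZMod q) = 0 := by
        apply MulChar.map_nonunit
        rw [ZMod.isUnit_iff_coprime]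
        intro h2
        exact (Nat.Prime.coprime_iff_not_dvd hp).mp h2 hpq
      rw [h1, mul_zero]
    have hdata := data_of_twist hD hβ hγ τ hεp.le
    have hqH : q ≤ H := by exact_mod_cast hq2.trans hXH
    have h1 := hE2 c hc α hα (gK D K χ) (hG3 K hD hdisc q hq1 hq2 χ) q hq1 hqH hgq ε τ hε0 hε1 hτ _ _ hdata
    -- the cut
    have hlog2 : η / 16 * Real.log H ≤ Real.log ((2 ^ J : ℕ) : ℝ) := by
      have h2 : Real.log ((2 ^ J : ℕ) + 1 : ℝ) ≤ 2 * Real.log ((2 ^ J : ℕ) : ℝ) := by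
        rw [← Real.log_rpow (by positivity)]
        apply Real.log_le_log (by positivity)
        have h3 : (2 : ℝ) ≤ ((2 ^ J : ℕ) : ℝ) := by
          push_cast
          calc (2 : ℝ) = 2 ^ 1 := by norm_num
            _ ≤ 2 ^ J := pow_le_pow_right₀ (by norm_num) hJ2
        rw [Real.rpow_two]
        nlinarith
      linarith
    have hcut : 16 / (ε * Real.log ((2 ^ J : ℕ) : ℝ)) ≤ R' := by
      have h3 : η / 16 ≤ ε * Real.log ((2 ^ J : ℕ) : ℝ) := by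
        have h4 : 1 ≤ ε * Real.log H := by
          rw [div_le_iff₀ hLpos] at hε0
          exact hε0
        calc η / 16 = η / 16 * 1 := by ring
          _ ≤ η / 16 * (ε * Real.log H) := by gcongr
          _ = ε * (η / 16 * Real.log H) := by ring
          _ ≤ _ := by gcongr
      calc 16 / (ε * Real.log ((2 ^ J : ℕ) : ℝ)) ≤ 16 / (η / 16) := by gcongr
        _ = R' := by rw [hR']; field_simp; norm_num
    have hβ' : ∀ v j, ‖β v j‖ ≤ (Ideal.absNorm v.asIdeal : ℝ) ^ (((2 * m : ℕ) : ℝ) / 2) := by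
      intro v j
      have e : (((2 * m : ℕ) : ℝ) / 2) = (m : ℝ) := by push_cast; ring
      rw [e, Real.rpow_natCast]
      exact hβ.bound v j
    have hγ' : ∀ (v : HeightOneSpectrum (𝓞 K)) (_j : Fin 1), ‖γ v‖ ≤
        (Ideal.absNorm v.asIdeal : ℝ) ^ (((0 : ℕ) : ℝ) / 2) := by
      intro v _
      simpa using hγ.bound v
    obtain ⟨a1, a2⟩ := log_cut (2 * m) b hβ' hD ε τ hεp hε1 hJ2 hcut
    obtain ⟨b1, b2⟩ := log_cut 0 1 (β := fun v (_ : Fin 1) => γ v) hγ' hD ε τ hεp hε1 hJ2 hcut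
    have s1 : ((2 * m : ℕ) : ℂ) / 2 + 1 + ε + τ * Complex.I = (m : ℂ) + 1 + ε + τ * Complex.I := by
      push_cast
      ring
    have s2 : ((0 : ℕ) : ℂ) / 2 + 1 + ε + τ * Complex.I = 1 + ε + τ * Complex.I := by
      push_cast
      ring
    rw [s1] at a1 a2
    rw [s2] at b1 b2
    refine ⟨a1, b1, ?_⟩
    set S1 := ∑ p ∈ PR (2 ^ J), ext (G β (2 * m) τ) p * (p : ℝ) ^ (-(1 + ε)) with hS1
    set S2 := ∑ p ∈ PR (2 ^ J), ext (G (fun v (_ : Fin 1) => γ v) 0 τ) p * (p : ℝ) ^ (-(1 + ε)) with hS2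
    set X1 := Real.log ‖LFun β (m + 1 + ε + τ * Complex.I)‖
    set X2 := Real.log ‖LFun (fun v (_ : Fin 1) => γ v) (1 + ε + τ * Complex.I)‖
    have h5 : ∑ p ∈ PR (2 ^ J), (ext (G β (2 * m) τ) p * (p : ℝ) ^ (-(1 + ε)) / D -
        (1 + e) * (ext (G (fun v (_ : Fin 1) => γ v) 0 τ) p * (p : ℝ) ^ (-(1 + ε)) / D)) =
        (S1 - (1 + e) * S2) / D := by
      rw [hS1, hS2, sum_sub_distrib, ← mul_sum, ← sum_div, ← sum_div]
      ring
    rw [h5, abs_div, abs_of_pos hD0, div_le_iff₀ hD0] at h1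
    have e0 : X1 - (1 + e) * X2 = (X1 - S1) + (S1 - (1 + e) * S2) + -((1 + e) * (X2 - S2)) := by ring
    rw [e0]
    have i1 := abs_add_le ((X1 - S1) + (S1 - (1 + e) * S2)) (-((1 + e) * (X2 - S2)))
    have i2 := abs_add_le (X1 - S1) (S1 - (1 + e) * S2)
    have i3 : |-((1 + e) * (X2 - S2))| ≤ |1 + e| * ((1 : ℕ) * D * (2 * Cz + R')) := by
      rw [abs_neg, abs_mul]
      gcongr
    have i4 : (b : ℝ) * D * (2 * Cz + R') + |1 + e| * ((1 : ℕ) * D * (2 * Cz + R')) = K2 := by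
      rw [hK2]
      push_cast
      ring
    have i5 : ((b + |1 + e|) * Real.log (Real.log (Real.log H)) + C1) * D =
        D * (b + |1 + e|) * Real.log (Real.log (Real.log H)) + D * C1 := by ring
    have i6 : 0 ≤ C1 * (2 * C2) + 3 ^ n * ((H1 : ℝ) + 1) := by positivity
    rw [i5] at h1
    linarith

end Pool.Agent.H11.PT
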